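import Mathlib

/-!
# Counting: small gaps, and sets with few ends of runs
-/

set_option autoImplicit false

namespace Pool.Agent.Q170.RS

/-- elements with a near successor are covered by few small sets, the others are spaced -/
theorem gap_count (X : Finset ℕ) (A T G : ℕ) (hG : 1 ≤ G) (hX : ∀ n ∈ X, A ≤ n ∧ n < A + T)
    (Y : ℕ → Finset ℕ) (R : ℕ) (hY : ∀ g, (Y g).card ≤ R)
    (h : ∀ n ∈ X, ∀ n' ∈ X, n < n' → n' ≤ n + G → ∃ g, 1 ≤ g ∧ g ≤ 2 * G ∧ n ∈ Y g) :
    G * X.card ≤ T + G + 2 * G * G * R := by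
  classical
  let I : Finset ℕ := X.filter (fun n => ∀ n' ∈ X, n < n' → n + G < n')
  have hI : G * I.card ≤ T + G := by
    have h1 : I.card ≤ (Finset.range (T / G + 1)).card := by
      refine Finset.card_le_card_of_injOn (fun n => (n - A) / G) ?_ ?_
      · intro n hn
        have hn' := hX n (Finset.mem_filter.1 hn).1
        have : (n - A) / G ≤ T / G := Nat.div_le_div_right (by omega)
        simp only [Finset.coe_range, Set.mem_Iio]
        omega
      · have key : ∀ n ∈ I, ∀ n' ∈ I, n < n' → (n - A) / G < (n' - A) / G := by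
          intro n hn n' hn' hlt
          have h1 := (Finset.mem_filter.1 hn).2 n' (Finset.mem_filter.1 hn').1 hlt
          have h2 := hX n (Finset.mem_filter.1 hn).1
          have h3 : (n - A) / G + 1 ≤ (n' - A) / G := by
            rw [← Nat.add_div_right _ (by omega : 0 < G)]
            exact Nat.div_le_div_right (by omega)
          omega
        intro n hn n' hn' heq
        rcases lt_trichotomy n n' with hlt | heq' | hlt
        · exact absurd heq (key n hn n' hn' hlt).ne
        · exact heq'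
        · exact absurd heq (key n' hn' n hn hlt).ne'
    rw [Finset.card_range] at h1
    calc G * I.card ≤ G * (T / G + 1) := Nat.mul_le_mul_left _ h1
      _ = G * (T / G) + G := by ring
      _ ≤ T + G := by have := Nat.mul_div_le T G; omega
  have hsub : X ⊆ I ∪ (Finset.Icc 1 (2 * G)).biUnion Y := by
    intro n hn
    by_cases hn' : ∀ n' ∈ X, n < n' → n + G < n'
    · exact Finset.mem_union_left _ (Finset.mem_filter.2 ⟨hn, hn'⟩)
    · push Not at hn'
      obtain ⟨n', hn1, hn2, hn3⟩ := hn'
      obtain ⟨g, hg1, hg2, hg3⟩ := h n hn n' hn1 hn2 hn3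
      exact Finset.mem_union_right _ (Finset.mem_biUnion.2 ⟨g, Finset.mem_Icc.2 ⟨hg1, hg2⟩, hg3⟩)
  have h2 : X.card ≤ I.card + 2 * G * R := by
    refine le_trans (Finset.card_le_card hsub) (le_trans (Finset.card_union_le _ _) ?_)
    have h3 : ((Finset.Icc 1 (2 * G)).biUnion Y).card ≤ (Finset.Icc 1 (2 * G)).card * R :=
      Finset.card_biUnion_le_card_mul _ _ _ (fun g _ => hY g)
    rw [Nat.card_Icc] at h3
    simp only [Nat.add_sub_cancel] at h3
    omega
  calc G * X.card ≤ G * (I.card + 2 * G * R) := Nat.mul_le_mul_left _ h2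
    _ = G * I.card + 2 * G * G * R := by ring
    _ ≤ T + G + 2 * G * G * R := by omega

/-- a finite or infinite arithmetic progression with difference `g` (it may be empty): the elements
of a residue class modulo `g` in an interval `[a, b)`, `b ≤ ∞` -/
def IsProg (g : ℕ) (s : Set ℕ) : Prop :=
  ∃ (a : ℕ) (b : ℕ∞), s = {n | a ≤ n ∧ n % g = a % g ∧ (n : ℕ∞) < b}

theorem isProg_empty (g : ℕ) : IsProg g ∅ := ⟨0, 0, by ext n; simp⟩

/-- convex parts of a residue class are progressions -/
theorem isProg_of_convex (g : ℕ) (s : Set ℕ) (h1 : ∀ n ∈ s, ∀ n' ∈ s, n % g = n' % g)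
    (h2 : ∀ n ∈ s, ∀ n' ∈ s, n < n' → n + g ∈ s) : IsProg g s := by
  classical
  rcases Set.eq_empty_or_nonempty s with hs | hs
  · rw [hs]; exact isProg_empty g
  obtain ⟨a, ha, hamin⟩ : ∃ a ∈ s, ∀ n ∈ s, a ≤ n := ⟨sInf s, Nat.sInf_mem hs,
    fun n hn => Nat.sInf_le hn⟩
  refine ⟨a, ⨆ n ∈ s, ((n : ℕ∞) + 1), ?_⟩
  ext n
  simp only [Set.mem_setOf_eq, lt_iSup_iff, exists_prop]
  constructor
  · intro hn
    refine ⟨hamin n hn, h1 n hn a ha, n, hn, ?_⟩
    exact_mod_cast Nat.lt_succ_self n
  · rintro ⟨han, hmod, m, hm, hnm⟩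
    have hnm' : n ≤ m := by
      have : n < m + 1 := by exact_mod_cast hnm
      omega
    obtain ⟨q, hq⟩ : g ∣ n - a := (Nat.modEq_iff_dvd' han).1 (by
      show a % g = n % g
      exact hmod.symm)
    have key : ∀ j, a + g * j ≤ m → a + g * j ∈ s := by
      intro j
      induction j with
      | zero => intro _; simpa using ha
      | succ j ih =>
        intro hj
        rcases Nat.eq_zero_or_pos g with hg | hg
        · subst hg; simpa using ha
        have hj' : a + g * j < m := by
          have : a + g * (j + 1) = a + g * j + g := by ring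
          omega
        have h3 := h2 _ (ih hj'.le) m hm hj'
        have e : a + g * (j + 1) = a + g * j + g := by ring
        rw [e]; exact h3
    have e : n = a + g * q := by omega
    rw [e]
    exact key q (by omega)

/-- a set with at most `N` ends of runs is a union of `g (N + 1)` progressions -/
theorem prog_decomp (S Z : Set ℕ) (g N : ℕ) (hg : 1 ≤ g) (hZ : Z.Finite) (hZN : Z.ncard ≤ N)
    (h : ∀ n ∈ S, n ∉ Z → n + g ∈ S) :
    ∃ P : Fin g × Fin (N + 1) → Set ℕ, (∀ k, IsProg g (P k)) ∧ S = ⋃ k, P k := by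
  classical
  have hfin : ∀ n : ℕ, (Z ∩ Set.Iio n).Finite := fun n => hZ.subset Set.inter_subset_left
  refine ⟨fun k => {n | n ∈ S ∧ n % g = k.1 ∧ (Z ∩ Set.Iio n).ncard = k.2}, ?_, ?_⟩
  · rintro ⟨ρ, k⟩
    refine isProg_of_convex g _ ?_ ?_
    · rintro n ⟨_, h1, _⟩ n' ⟨_, h1', _⟩
      rw [h1, h1']
    · rintro n ⟨hn, h1, h2⟩ n' ⟨hn', h1', h2'⟩ hlt
      have hnZ : n ∉ Z := by
        intro hnZ
        have h3 : (Z ∩ Set.Iio n).ncard < (Z ∩ Set.Iio n').ncard := by
          refine Set.ncard_lt_ncard ?_ (hfin n')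
          refine ⟨Set.inter_subset_inter_right _ (Set.Iio_subset_Iio hlt.le), ?_⟩
          intro h4
          have := h4 ⟨hnZ, hlt⟩
          simp at this
        rw [h2, h2'] at h3
        exact lt_irrefl _ h3
      have hle : n + g ≤ n' := by
        have h3 : n % g = n' % g := by rw [h1, h1']
        obtain ⟨q, hq⟩ := (Nat.modEq_iff_dvd' hlt.le).1 h3
        have hq0 : q ≠ 0 := by rintro rfl; omega
        have : g * 1 ≤ g * q := Nat.mul_le_mul_left _ (Nat.one_le_iff_ne_zero.2 hq0)
        omega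
      refine ⟨h n hn hnZ, by simpa using h1, ?_⟩
      apply le_antisymm
      · calc (Z ∩ Set.Iio (n + g)).ncard ≤ (Z ∩ Set.Iio n').ncard :=
            Set.ncard_le_ncard (Set.inter_subset_inter_right _ (Set.Iio_subset_Iio hle)) (hfin n')
          _ = k := h2'
      · calc (k : ℕ) = (Z ∩ Set.Iio n).ncard := h2.symm
          _ ≤ (Z ∩ Set.Iio (n + g)).ncard :=
            Set.ncard_le_ncard (Set.inter_subset_inter_right _
              (Set.Iio_subset_Iio (Nat.le_add_right _ _))) (hfin _)
  · ext n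
    simp only [Set.mem_iUnion]
    constructor
    · intro hn
      have h1 : (Z ∩ Set.Iio n).ncard < N + 1 := by
        have := Set.ncard_le_ncard (Set.inter_subset_left : Z ∩ Set.Iio n ⊆ Z) hZ
        omega
      exact ⟨(⟨n % g, Nat.mod_lt _ (by omega)⟩, ⟨_, h1⟩), hn, rfl, rfl⟩
    · rintro ⟨k, hk⟩
      exact hk.1

end Pool.Agent.Q170.RS
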