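import Mathlib

/-!
# Clearing denominators with a bound for the degree
-/

set_option autoImplicit false

namespace Pool.Agent.Q170.RS

open Polynomial

variable {K : Type*} [Field K] {ι : Type*} [Fintype ι] [DecidableEq ι]

/-- a vector of polynomials as a vector over the field of rational functions -/
noncomputable def toF (u : ι → K[X]) : ι → RatFunc K := fun j => algebraMap K[X] (RatFunc K) (u j)

theorem natDegree_det_le (N : Matrix ι ι K[X]) (d : ℕ) (h : ∀ i j, (N i j).natDegree ≤ d) :
    N.det.natDegree ≤ Fintype.card ι * d := by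
  rw [Matrix.det_apply]
  refine Polynomial.natDegree_sum_le_of_forall_le _ _ (fun σ _ => ?_)
  refine le_trans (Polynomial.natDegree_smul_le _ _) ?_
  refine le_trans (Polynomial.natDegree_prod_le _ _) ?_
  refine le_trans (Finset.sum_le_sum (fun i _ => h _ _)) ?_
  simp

theorem clear (d : ℕ) (S : Set (ι → K[X])) (hS : ∀ s ∈ S, ∀ j, (s j).natDegree ≤ d)
    (u : ι → K[X]) (hu : toF u ∈ Submodule.span (RatFunc K) (toF '' S)) :
    ∃ f : K[X], f ≠ 0 ∧ f.natDegree ≤ Fintype.card ι * d ∧ f • u ∈ Submodule.span K[X] S := by
  classical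
  obtain ⟨b, hbS, hspan, hbi⟩ := exists_linearIndependent (RatFunc K) (toF '' S)
  set t : Set (ι → (RatFunc K)) := toF '' S ∪ Set.range (fun j : ι => (Pi.single j (1 : (RatFunc K)) : ι → (RatFunc K))) with ht
  obtain ⟨b', hb't, hbb', htb', hb'i'⟩ := exists_linearIndepOn_id_extension hbi
    (hbS.trans Set.subset_union_left : b ⊆ t)
  have hb'i : LinearIndependent (RatFunc K) ((↑) : b' → (ι → (RatFunc K))) := hb'i'
  have htop : (⊤ : Submodule (RatFunc K) (ι → (RatFunc K))) ≤ Submodule.span (RatFunc K) b' := by
    rw [← (Pi.basisFun (RatFunc K) ι).span_eq, Submodule.span_le]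
    rintro _ ⟨j, rfl⟩
    exact htb' (Set.mem_union_right _ ⟨j, by simp⟩)
  have hcard : Fintype.card ι = Nat.card b' := by
    let B : Module.Basis b' (RatFunc K) (ι → (RatFunc K)) := Module.Basis.mk hb'i (by simpa using htop)
    have h1 := Module.finrank_eq_nat_card_basis B
    rw [Module.finrank_fintype_fun_eq_card] at h1
    exact h1
  have hfin : Finite b' := by
    let B : Module.Basis b' (RatFunc K) (ι → (RatFunc K)) := Module.Basis.mk hb'i (by simpa using htop)
    exact Module.Finite.finite_basis B
  have : Fintype b' := Fintype.ofFinite b'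
  have e : ι ≃ b' := Fintype.equivOfCardEq (by rw [hcard, Nat.card_eq_fintype_card])
  have hlift : ∀ k : ι, ∃ L : ι → K[X], toF L = (e k : ι → (RatFunc K)) ∧ (∀ j, (L j).natDegree ≤ d) ∧
      ((e k : ι → (RatFunc K)) ∈ b → L ∈ S) := by
    intro k
    by_cases hk : (e k : ι → (RatFunc K)) ∈ b
    · obtain ⟨s, hs, hse⟩ := hbS hk
      exact ⟨s, hse, hS s hs, fun _ => hs⟩
    · rcases hb't (e k).2 with h | h
      · obtain ⟨s, hs, hse⟩ := h
        exact ⟨s, hse, hS s hs, fun h' => absurd h' hk⟩
      · obtain ⟨j, hj⟩ := h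
        refine ⟨Pi.single j 1, ?_, ?_, fun h' => absurd h' hk⟩
        · rw [← hj]
          funext i
          by_cases hij : i = j
          · subst hij; simp [toF]
          · simp [toF, hij]
        · intro i
          by_cases hij : i = j
          · subst hij; simp
          · simp [hij]
  choose L hL1 hL2 hL3 using hlift
  let N : Matrix ι ι K[X] := Matrix.of L
  have hli : LinearIndependent (RatFunc K) (fun k : ι => toF (L k)) := by
    have h1 : LinearIndependent (RatFunc K) (fun k : ι => ((e k : b') : ι → (RatFunc K))) :=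
      hb'i.comp (fun k : ι => e k) e.injective
    have h2 : (fun k : ι => toF (L k)) = fun k : ι => ((e k : b') : ι → (RatFunc K)) := funext hL1
    rw [h2]; exact h1
  have hdetF : (N.map (algebraMap K[X] (RatFunc K))).det ≠ 0 := by
    have h1 : LinearIndependent (RatFunc K) (N.map (algebraMap K[X] (RatFunc K))).row := hli
    rw [Matrix.linearIndependent_rows_iff_isUnit, Matrix.isUnit_iff_isUnit_det] at h1
    exact h1.ne_zero
  have hdet : N.det ≠ 0 := by
    intro h
    apply hdetF
    rw [← RingHom.mapMatrix_apply, ← RingHom.map_det, h, map_zero]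
  set lam : ι → K[X] := Matrix.vecMul u N.adjugate with hlam
  have hcomb : N.det • u = ∑ k, lam k • L k := by
    have h1 : Matrix.vecMul lam N = N.det • u := by
      rw [hlam, Matrix.vecMul_vecMul, Matrix.adjugate_mul, Matrix.vecMul_smul, Matrix.vecMul_one]
    rw [← h1]
    funext j
    simp [Matrix.vecMul, dotProduct, N, Finset.sum_apply]
  refine ⟨N.det, hdet, natDegree_det_le N d (fun i j => hL2 i j), ?_⟩
  -- the coefficients outside b vanish
  have hzero : ∀ k : ι, (e k : ι → (RatFunc K)) ∉ b → lam k = 0 := by
    have h1 : toF u ∈ Submodule.span (RatFunc K) ((fun k : ι => toF (L k)) '' {k | (e k : ι → (RatFunc K)) ∈ b}) := by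
      rw [← hspan] at hu
      refine Submodule.span_mono ?_ hu
      intro v hv
      refine ⟨e.symm ⟨v, hbb' hv⟩, ?_, ?_⟩
      · simp [hv]
      · simp [hL1]
    have h2 : toF (N.det • u) ∈
        Submodule.span (RatFunc K) ((fun k : ι => toF (L k)) '' {k | (e k : ι → (RatFunc K)) ∈ b}) := by
      have h3 : toF (N.det • u) = (algebraMap K[X] (RatFunc K) N.det) • toF u := by
        funext j; simp [toF]
      rw [h3]
      exact Submodule.smul_mem _ _ h1
    obtain ⟨l, hl, hl2⟩ := (Finsupp.mem_span_image_iff_linearCombination (RatFunc K)).1 h2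
    have h4 : toF (N.det • u) = Finsupp.linearCombination (RatFunc K) (fun k : ι => toF (L k))
        (Finsupp.equivFunOnFinite.symm (fun k => algebraMap K[X] (RatFunc K) (lam k))) := by
      rw [hcomb, Finsupp.linearCombination_apply, Finsupp.sum_fintype _ _ (by simp)]
      funext j
      simp [toF, Finset.sum_apply, Algebra.smul_def]
    have h5 : l = Finsupp.equivFunOnFinite.symm (fun k => algebraMap K[X] (RatFunc K) (lam k)) := by
      apply hli
      rw [hl2, h4]
    intro k hk
    have h6 : l k = 0 := by
      by_contra h7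
      exact hk (hl (Finsupp.mem_support_iff.2 h7))
    rw [h5] at h6
    have h8 : algebraMap K[X] (RatFunc K) (lam k) = 0 := by simpa using h6
    exact (map_eq_zero_iff _ (IsFractionRing.injective K[X] (RatFunc K))).1 h8
  rw [hcomb]
  refine Submodule.sum_mem _ (fun k _ => ?_)
  by_cases hk : (e k : ι → (RatFunc K)) ∈ b
  · exact Submodule.smul_mem _ _ (Submodule.subset_span (hL3 k hk))
  · rw [hzero k hk, zero_smul]; exact Submodule.zero_mem _

omit [Fintype ι] [DecidableEq ι] in
/-- a relation over the polynomials gives a relation over the rational functions -/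
theorem toF_mem {S : Set (ι → K[X])} {u : ι → K[X]} {f : K[X]} (hf : f ≠ 0)
    (h : f • u ∈ Submodule.span K[X] S) : toF u ∈ Submodule.span (RatFunc K) (toF '' S) := by
  have h1 : ∀ v ∈ Submodule.span K[X] S, toF v ∈ Submodule.span (RatFunc K) (toF '' S) := by
    intro v hv
    induction hv using Submodule.span_induction with
    | mem x hx => exact Submodule.subset_span ⟨x, hx, rfl⟩
    | zero =>
      have : toF (0 : ι → K[X]) = 0 := by funext j; simp [toF]
      rw [this]; exact Submodule.zero_mem _
    | add x y _ _ hx hy =>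
      have : toF (x + y) = toF x + toF y := by funext j; simp [toF]
      rw [this]; exact Submodule.add_mem _ hx hy
    | smul a x _ hx =>
      have : toF (a • x) = (algebraMap K[X] (RatFunc K) a) • toF x := by funext j; simp [toF]
      rw [this]; exact Submodule.smul_mem _ _ hx
  have h2 := h1 _ h
  have h3 : toF (f • u) = (algebraMap K[X] (RatFunc K) f) • toF u := by funext j; simp [toF]
  rw [h3] at h2
  have h4 : algebraMap K[X] (RatFunc K) f ≠ 0 := by
    intro h5
    exact hf ((map_eq_zero_iff _ (IsFractionRing.injective K[X] (RatFunc K))).1 h5)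
  have h6 := Submodule.smul_mem _ (algebraMap K[X] (RatFunc K) f)⁻¹ h2
  rwa [smul_smul, inv_mul_cancel₀ h4, one_smul] at h6

end Pool.Agent.Q170.RS
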