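import Mathlib

/-!
# Sequences of vectors whose linear relations can be shifted
-/

set_option autoImplicit false

namespace Pool.Agent.Q170.RS

variable (F : Type*) {V κ : Type*} [Field F] [AddCommGroup V] [Module F V]

/-- the span of the vectors with an index in `D` -/
def sp (w : ℕ → κ → V) (D : Set ℕ) : Submodule F V :=
  Submodule.span F {v | ∃ g ∈ D, ∃ i, v = w g i}

variable {F}

theorem mem_sp {w : ℕ → κ → V} {D : Set ℕ} {g : ℕ} (hg : g ∈ D) (i : κ) : w g i ∈ sp F w D :=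
  Submodule.subset_span ⟨g, hg, i, rfl⟩

theorem sp_le {w : ℕ → κ → V} {D : Set ℕ} {U : Submodule F V} (h : ∀ g ∈ D, ∀ i, w g i ∈ U) :
    sp F w D ≤ U := by
  refine Submodule.span_le.2 ?_
  rintro _ ⟨g, hg, i, rfl⟩
  exact h g hg i

theorem sp_mono {w : ℕ → κ → V} {D D' : Set ℕ} (h : D ⊆ D') : sp F w D ≤ sp F w D' :=
  sp_le fun _ hg i => mem_sp (h hg) i

/-- relations of the vectors can be shifted -/
def Shift (F : Type*) {V κ : Type*} [Field F] [AddCommGroup V] [Module F V]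
    (w : ℕ → κ → V) : Prop :=
  ∀ D : Finset ℕ, ∀ g i h, w g i ∈ sp F w (D : Set ℕ) →
    w (g + h) i ∈ sp F w ((fun x => x + h) '' (D : Set ℕ))

/-- `D` is stable under a shift -/
def Per (F : Type*) {V κ : Type*} [Field F] [AddCommGroup V] [Module F V]
    (w : ℕ → κ → V) (D : Set ℕ) (g : ℕ) : Prop :=
  ∀ x ∈ D, ∀ i, w (x + g) i ∈ sp F w D

theorem Per.mul {w : ℕ → κ → V} (hw : Shift F w) {D : Finset ℕ} {g : ℕ}
    (h : Per F w (D : Set ℕ) g) (j : ℕ) : ∀ x ∈ D, ∀ i, w (x + g * j) i ∈ sp F w (D : Set ℕ) := by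
  induction j with
  | zero => intro x hx i; simpa using mem_sp (F := F) (w := w) (D := (D : Set ℕ)) hx i
  | succ j ih =>
    intro x hx i
    have h1 := hw D (x + g * j) i g (ih x hx i)
    have h2 : sp F w ((fun x => x + g) '' (D : Set ℕ)) ≤ sp F w (D : Set ℕ) := by
      refine sp_le ?_
      rintro _ ⟨y, hy, rfl⟩ i'
      exact h y hy i'
    have h3 := h2 h1
    have e : x + g * (j + 1) = x + g * j + g := by ring
    rw [e]; exact h3

variable [FiniteDimensional F V]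

/-- one shift and one number for all stable sets -/
theorem exists_period {w : ℕ → κ → V} (hw : Shift F w) :
    ∃ g0 J : ℕ, 1 ≤ g0 ∧ 1 ≤ J ∧ (∀ i, w (g0 * J) i ∈ sp F w {n | ∃ j < J, n = g0 * j}) ∧
      ∀ D : Finset ℕ, 0 ∈ D → ∀ g, 1 ≤ g → Per F w (D : Set ℕ) g →
        ∀ j i, w (g0 * j) i ∈ sp F w (D : Set ℕ) := by
  classical
  let dd : ℕ → ℕ := fun g => Module.finrank F (sp F w {n | ∃ j, n = g * j})
  have hex : ∃ d, ∃ g, 1 ≤ g ∧ dd g = d := ⟨dd 1, 1, le_rfl, rfl⟩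
  obtain ⟨g0, hg0, hd0⟩ := Nat.find_spec hex
  have hmin : ∀ g, 1 ≤ g → dd g0 ≤ dd g := by
    intro g hg
    rw [hd0]
    exact Nat.find_min' hex ⟨g, hg, rfl⟩
  -- the chain
  let U : ℕ →o Submodule F V :=
    ⟨fun J => sp F w {n | ∃ j < J, n = g0 * j}, by
      intro J J' hJ
      refine sp_mono ?_
      rintro n ⟨j, hj, rfl⟩
      exact ⟨j, lt_of_lt_of_le hj hJ, rfl⟩⟩
  obtain ⟨n, hn⟩ := (monotone_stabilizes_iff_noetherian (R := F) (M := V)).2 inferInstance U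
  refine ⟨g0, n + 1, hg0, Nat.le_add_left _ _, ?_, ?_⟩
  · intro i
    have h1 : w (g0 * (n + 1)) i ∈ U (n + 2) :=
      mem_sp (D := {m | ∃ j < n + 2, m = g0 * j}) ⟨n + 1, by omega, rfl⟩ i
    have h2 : U (n + 2) = U (n + 1) := by rw [← hn (n + 2) (by omega), ← hn (n + 1) (by omega)]
    rw [h2] at h1
    exact h1
  · intro D h0 g hg hper j i
    have h1 : sp F w {n | ∃ j, n = g * j} ≤ sp F w (D : Set ℕ) := by
      refine sp_le ?_
      rintro _ ⟨j, rfl⟩ i
      have := Per.mul hw hper j 0 h0 i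
      simpa using this
    have h2 : sp F w {n | ∃ j, n = (g0 * g) * j} ≤ sp F w {n | ∃ j, n = g0 * j} := by
      refine sp_mono ?_
      rintro _ ⟨j, rfl⟩
      exact ⟨g * j, by ring⟩
    have h3 : sp F w {n | ∃ j, n = (g0 * g) * j} = sp F w {n | ∃ j, n = g0 * j} := by
      refine Submodule.eq_of_le_of_finrank_le h2 ?_
      exact hmin (g0 * g) (Nat.mul_pos hg0 hg)
    have h4 : sp F w {n | ∃ j, n = (g0 * g) * j} ≤ sp F w {n | ∃ j, n = g * j} := by
      refine sp_mono ?_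
      rintro _ ⟨j, rfl⟩
      exact ⟨g0 * j, by ring⟩
    apply h1
    apply h4
    rw [h3]
    exact mem_sp (D := {n | ∃ j, n = g0 * j}) ⟨j, rfl⟩ i

end Pool.Agent.Q170.RS
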