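import Mathlib
import Pool.Agent.Q170.RS.Lin
import Pool.Agent.Q170.RS.Per
import Pool.Agent.Q170.RS.Cnt

/-!
# Systems of functionals over a ring of polynomials with a shift
-/

set_option autoImplicit false

namespace Pool.Agent.Q170.RS

open Polynomial

/-- A shift `T` on a module over `K[X]`, semilinear over `σ`, a finite family `c` of elements, with
coordinates whose degrees grow linearly under `T`; `Q` is a denominator. -/
structure Sys (K : Type*) [Field K] (ι κ : Type*) (M : Type*) [AddCommGroup M]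
    [Module K[X] M] where
  σ : K[X] →+* K[X]
  σinj : Function.Injective σ
  T : M →+ M
  semi : ∀ (f : K[X]) (u : M), T (f • u) = σ f • T u
  P : Submodule K[X] M
  TP : ∀ u ∈ P, T u ∈ P
  co : M →ₗ[K[X]] (ι → K[X])
  coinj : ∀ u ∈ P, co u = 0 → u = 0
  c : κ → M
  cP : ∀ i, c i ∈ P
  a : ℕ
  b : ℕ
  deg : ∀ g i j, (co (T^[g] (c i)) j).natDegree ≤ a + b * g
  Q : K[X]
  Q0 : Q ≠ 0

/-- An orbit: points `x n` of the line with `σ f (x n) = f (x (n + 1))` and values `p n` of the
elements of the module. -/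
structure Sol {K : Type*} [Field K] {ι κ M : Type*} [AddCommGroup M] [Module K[X] M]
    (s : Sys K ι κ M) where
  x : ℕ → K
  inj : Function.Injective x
  xσ : ∀ (f : K[X]) (n : ℕ), (s.σ f).eval (x n) = f.eval (x (n + 1))
  p : ℕ → M →+ K
  smul : ∀ (n : ℕ) (f : K[X]) (u : M), p n (f • u) = f.eval (x n) * p n u
  step : ∀ (n : ℕ) (u : M), p n (s.T u) = s.Q.eval (x n) * p (n + 1) u

variable {K : Type*} [Field K] {ι κ M : Type*} [AddCommGroup M] [Module K[X] M]

namespace Sys

variable (s : Sys K ι κ M)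

/-- the vectors of the system -/
noncomputable def w (g : ℕ) (i : κ) : ι → RatFunc K := toF (s.co (s.T^[g] (s.c i)))

theorem iter_P (g : ℕ) (u : M) (hu : u ∈ s.P) : s.T^[g] u ∈ s.P := by
  induction g generalizing u with
  | zero => exact hu
  | succ g ih => rw [Function.iterate_succ_apply]; exact ih _ (s.TP u hu)

theorem iter_smul (h : ℕ) (f : K[X]) (u : M) : s.T^[h] (f • u) = (s.σ^[h] f) • s.T^[h] u := by
  induction h generalizing f u with
  | zero => rfl
  | succ h ih =>
    rw [Function.iterate_succ_apply, s.semi, ih, Function.iterate_succ_apply,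
      Function.iterate_succ_apply]

theorem iter_zero (h : ℕ) : s.T^[h] (0 : M) = 0 := by
  induction h with
  | zero => rfl
  | succ h ih => rw [Function.iterate_succ_apply, map_zero, ih]

theorem iter_add (h : ℕ) (u v : M) : s.T^[h] (u + v) = s.T^[h] u + s.T^[h] v := by
  induction h generalizing u v with
  | zero => rfl
  | succ h ih => simp only [Function.iterate_succ_apply, map_add, ih]

theorem iter_ne (h : ℕ) {f : K[X]} (hf : f ≠ 0) : s.σ^[h] f ≠ 0 := by
  induction h generalizing f with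
  | zero => exact hf
  | succ h ih =>
    rw [Function.iterate_succ_apply]
    exact ih ((map_ne_zero_iff _ s.σinj).2 hf)

/-- the elements of the module with an index in `D` -/
def gen (D : Set ℕ) : Set M := {u | ∃ g ∈ D, ∃ i, u = s.T^[g] (s.c i)}

theorem sp_eq (D : Set ℕ) :
    sp (RatFunc K) s.w D = Submodule.span (RatFunc K) (toF '' (s.co '' (s.gen D))) := by
  unfold sp
  congr 1
  ext v
  constructor
  · rintro ⟨g, hg, i, rfl⟩
    exact ⟨_, ⟨_, ⟨g, hg, i, rfl⟩, rfl⟩, rfl⟩
  · rintro ⟨_, ⟨_, ⟨g, hg, i, rfl⟩, rfl⟩, rfl⟩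
    exact ⟨g, hg, i, rfl⟩

variable [Fintype ι] [DecidableEq ι]

/-- a relation over the rational functions is a relation in the module -/
theorem clear' (D : Set ℕ) (m : ℕ) (hD : ∀ g ∈ D, g ≤ m) (g : ℕ) (i : κ)
    (h : s.w g i ∈ sp (RatFunc K) s.w D) :
    ∃ f : K[X], f ≠ 0 ∧ f.natDegree ≤ Fintype.card ι * (s.a + s.b * m) ∧
      f • s.T^[g] (s.c i) ∈ Submodule.span K[X] (s.gen D) := by
  rw [s.sp_eq] at h
  obtain ⟨f, hf, hd, hm⟩ := clear (s.a + s.b * m) (s.co '' (s.gen D)) (by
    rintro _ ⟨_, ⟨g', hg', i', rfl⟩, rfl⟩ j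
    exact le_trans (s.deg g' i' j)
      (Nat.add_le_add_left (Nat.mul_le_mul_left _ (hD g' hg')) _)) _ h
  refine ⟨f, hf, hd, ?_⟩
  rw [← Submodule.map_span] at hm
  obtain ⟨u, hu, hu2⟩ := hm
  have hgen : Submodule.span K[X] (s.gen D) ≤ s.P := by
    refine Submodule.span_le.2 ?_
    rintro _ ⟨g', _, i', rfl⟩
    exact s.iter_P g' _ (s.cP i')
  have h1 : f • s.T^[g] (s.c i) - u = 0 := by
    refine s.coinj _ (Submodule.sub_mem _ (Submodule.smul_mem _ _ (s.iter_P g _ (s.cP i)))
      (hgen hu)) ?_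
    rw [map_sub, map_smul, hu2, sub_self]
  rw [sub_eq_zero] at h1
  rw [h1]; exact hu

theorem span_shift (D : Set ℕ) (h : ℕ) (u : M) (hu : u ∈ Submodule.span K[X] (s.gen D)) :
    s.T^[h] u ∈ Submodule.span K[X] (s.gen ((fun x => x + h) '' D)) := by
  induction hu using Submodule.span_induction with
  | mem x hx =>
    obtain ⟨g, hg, i, rfl⟩ := hx
    refine Submodule.subset_span ⟨g + h, ⟨g, hg, rfl⟩, i, ?_⟩
    rw [← Function.iterate_add_apply, Nat.add_comm]
  | zero => rw [s.iter_zero]; exact Submodule.zero_mem _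
  | add x y _ _ hx hy => rw [s.iter_add]; exact Submodule.add_mem _ hx hy
  | smul a x _ hx => rw [s.iter_smul]; exact Submodule.smul_mem _ _ hx

theorem shift : Shift (RatFunc K) s.w := by
  intro D g i h hm
  obtain ⟨f, hf, -, hf2⟩ := s.clear' (D : Set ℕ) (D.sup id)
    (fun g hg => Finset.le_sup (f := id) hg) g i hm
  have h1 := s.span_shift _ h _ hf2
  rw [s.iter_smul, ← Function.iterate_add_apply, Nat.add_comm h g] at h1
  rw [s.sp_eq]
  refine toF_mem (s.iter_ne h hf) ?_
  rw [← map_smul, ← Submodule.map_span]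
  exact ⟨_, h1, rfl⟩

end Sys

namespace Sol

variable {s : Sys K ι κ M} (o : Sol s)

/-- the return set -/
def S : Set ℕ := {n | ∀ i, o.p n (s.c i) = 0}

/-- the times at which all the shifts by elements of `D` are returns -/
def Ret (D : Set ℕ) : Set ℕ := {n | ∀ g ∈ D, n + g ∈ o.S}

theorem iter (g n : ℕ) (u : M) :
    o.p n (s.T^[g] u) = (∏ k ∈ Finset.range g, s.Q.eval (o.x (n + k))) * o.p (n + g) u := by
  induction g generalizing u with
  | zero => simp
  | succ g ih =>
    rw [Function.iterate_succ_apply, ih, o.step, Finset.prod_range_succ]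
    rw [show n + (g + 1) = n + g + 1 by ring]
    ring

theorem card_zeros {f : K[X]} (hf : f ≠ 0) (k : ℕ) :
    {n | f.eval (o.x (n + k)) = 0}.Finite ∧ {n | f.eval (o.x (n + k)) = 0}.ncard ≤ f.natDegree := by
  classical
  have h1 : Set.InjOn (fun n => o.x (n + k)) {n | f.eval (o.x (n + k)) = 0} := by
    intro n _ n' _ h
    have := o.inj h
    omega
  have h2 : Set.MapsTo (fun n => o.x (n + k)) {n | f.eval (o.x (n + k)) = 0}
      (f.roots.toFinset : Set K) := by
    intro n hn
    have : f.eval (o.x (n + k)) = 0 := hn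
    simp [hf, this]
  have h3 : ({n | f.eval (o.x (n + k)) = 0}).Finite :=
    Set.Finite.of_injOn h2 h1 (Finset.finite_toSet _)
  refine ⟨h3, ?_⟩
  have h4 := Set.ncard_le_ncard_of_injOn _ h2 h1 (Finset.finite_toSet _)
  rw [Set.ncard_coe_finset] at h4
  exact le_trans h4 (le_trans (Multiset.toFinset_card_le _) (Polynomial.card_roots' f))

variable [Fintype ι] [DecidableEq ι] [Fintype κ]

/-- few exceptions for a consequence of relations -/
theorem transfer (D : Set ℕ) (m : ℕ) (hD : ∀ g ∈ D, g ≤ m) (g' : ℕ)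
    (h : ∀ i, s.w g' i ∈ sp (RatFunc K) s.w D) :
    {n | n ∈ o.Ret D ∧ n + g' ∉ o.S}.Finite ∧
      {n | n ∈ o.Ret D ∧ n + g' ∉ o.S}.ncard ≤
        Fintype.card κ * (Fintype.card ι * (s.a + s.b * m)) + g' * s.Q.natDegree := by
  classical
  have hf : ∀ i, ∃ f : K[X], f ≠ 0 ∧ f.natDegree ≤ Fintype.card ι * (s.a + s.b * m) ∧
      f • s.T^[g'] (s.c i) ∈ Submodule.span K[X] (s.gen D) :=
    fun i => s.clear' D m hD g' i (h i)
  choose f hf1 hf2 hf3 using hf
  have hsub : {n | n ∈ o.Ret D ∧ n + g' ∉ o.S} ⊆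
      (⋃ i ∈ (Finset.univ : Finset κ), {n | (f i).eval (o.x (n + 0)) = 0}) ∪
        ⋃ k ∈ Finset.range g', {n | s.Q.eval (o.x (n + k)) = 0} := by
    rintro n ⟨hn, hn'⟩
    have h0 : ∀ u ∈ Submodule.span K[X] (s.gen D), o.p n u = 0 := by
      intro u hu
      induction hu using Submodule.span_induction with
      | mem x hx =>
        obtain ⟨g, hg, i, rfl⟩ := hx
        rw [o.iter, hn g hg i, mul_zero]
      | zero => exact map_zero _
      | add x y _ _ hx hy => rw [map_add, hx, hy, add_zero]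
      | smul a x _ hx => rw [o.smul, hx, mul_zero]
    have hi : ∃ i, o.p (n + g') (s.c i) ≠ 0 := by
      by_contra hcon
      push Not at hcon
      exact hn' hcon
    obtain ⟨i, hi⟩ := hi
    have h1 := h0 _ (hf3 i)
    rw [o.smul, o.iter] at h1
    rcases mul_eq_zero.1 h1 with h2 | h2
    · left
      simp only [Set.mem_iUnion]
      exact ⟨i, Finset.mem_univ _, by simpa using h2⟩
    · rcases mul_eq_zero.1 h2 with h3 | h3
      · right
        obtain ⟨k, hk, hk2⟩ := Finset.prod_eq_zero_iff.1 h3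
        simp only [Set.mem_iUnion]
        exact ⟨k, hk, hk2⟩
      · exact absurd h3 hi
  have hfin1 : (⋃ i ∈ (Finset.univ : Finset κ), {n | (f i).eval (o.x (n + 0)) = 0}).Finite :=
    Set.Finite.biUnion (Finset.finite_toSet _) (fun i _ => (o.card_zeros (hf1 i) 0).1)
  have hfin2 : (⋃ k ∈ Finset.range g', {n | s.Q.eval (o.x (n + k)) = 0}).Finite :=
    Set.Finite.biUnion (Finset.finite_toSet _) (fun k _ => (o.card_zeros s.Q0 k).1)
  refine ⟨(hfin1.union hfin2).subset hsub, ?_⟩
  refine le_trans (Set.ncard_le_ncard hsub (hfin1.union hfin2)) ?_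
  refine le_trans (Set.ncard_union_le _ _) (Nat.add_le_add ?_ ?_)
  · have h1 : (⋃ i ∈ (Finset.univ : Finset κ), {n | (f i).eval (o.x (n + 0)) = 0}).ncard ≤
        ∑ i ∈ (Finset.univ : Finset κ), {n | (f i).eval (o.x (n + 0)) = 0}.ncard :=
      Finset.set_ncard_biUnion_le _ _
    refine le_trans h1 (le_trans (Finset.sum_le_sum (fun i _ =>
      le_trans (o.card_zeros (hf1 i) 0).2 (hf2 i))) ?_)
    simp
  · have h1 : (⋃ k ∈ Finset.range g', {n | s.Q.eval (o.x (n + k)) = 0}).ncard ≤
        ∑ k ∈ Finset.range g', {n | s.Q.eval (o.x (n + k)) = 0}.ncard :=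
      Finset.set_ncard_biUnion_le _ _
    refine le_trans h1 (le_trans (Finset.sum_le_sum (fun k _ => (o.card_zeros s.Q0 k).2)) ?_)
    simp

end Sol

end Pool.Agent.Q170.RS
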