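import Mathlib
import Pool.Agent.Q170.RS.Sys

/-!
# Return sets of systems: progressions and a sparse set
-/

set_option autoImplicit false

namespace Pool.Agent.Q170.RS

open Polynomial

/-- at most `C T ^ (1 - δ)` elements in each interval of length `T` -/
def Sparse (C δ : ℝ) (E : Set ℕ) : Prop :=
  ∀ M T : ℕ, 1 ≤ T → ((E ∩ Set.Ico M (M + T)).ncard : ℝ) ≤ C * (T : ℝ) ^ (1 - δ)

variable {K : Type*} [Field K] {ι κ M : Type*} [AddCommGroup M] [Module K[X] M]

namespace Sol

variable {s : Sys K ι κ M} (o : Sol s) (g0 J : ℕ)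

/-- the times `n` for which all `n + g0 j`, `j < J` are returns -/
def S0 : Set ℕ := o.Ret {n | ∃ j < J, n = g0 * j}

/-- the other returns -/
def E : Set ℕ := o.S \ o.S0 g0 J

end Sol

variable [Fintype ι] [DecidableEq ι] [Fintype κ]

/-- the hypothesis on `g0` and `J` -/
def Good (s : Sys K ι κ M) (g0 : ℕ) : Prop :=
  ∀ D : Finset ℕ, 0 ∈ D → ∀ g, 1 ≤ g → Per (RatFunc K) s.w (D : Set ℕ) g →
    ∀ j i, s.w (g0 * j) i ∈ sp (RatFunc K) s.w (D : Set ℕ)

theorem per_bound (s : Sys K ι κ M) (g0 J : ℕ) (hgood : Good s g0) :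
    ∃ C : ℕ, ∀ (o : Sol s) (m : ℕ) (D : Finset ℕ), 0 ∈ D → (∀ x ∈ D, x ≤ m) →
      (∃ g, 1 ≤ g ∧ Per (RatFunc K) s.w (D : Set ℕ) g) →
      (o.E g0 J ∩ o.Ret D).Finite ∧ (o.E g0 J ∩ o.Ret D).ncard ≤ C * (m + 1) := by
  classical
  refine ⟨J * (Fintype.card κ * (Fintype.card ι * (s.a + s.b)) + g0 * J * s.Q.natDegree), ?_⟩
  intro o m D h0 hm ⟨g, hg, hper⟩
  have ht := fun j => o.transfer (D : Set ℕ) m hm (g0 * j) (hgood D h0 g hg hper j)
  have hsub : o.E g0 J ∩ o.Ret D ⊆
      ⋃ j ∈ Finset.range J, {n | n ∈ o.Ret (D : Set ℕ) ∧ n + g0 * j ∉ o.S} := by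
    rintro n ⟨⟨hn1, hn2⟩, hn3⟩
    have : ∃ j < J, n + g0 * j ∉ o.S := by
      by_contra hcon
      push Not at hcon
      apply hn2
      rintro _ ⟨j, hj, rfl⟩
      exact hcon j hj
    obtain ⟨j, hj, hj2⟩ := this
    simp only [Set.mem_iUnion]
    exact ⟨j, Finset.mem_range.2 hj, hn3, hj2⟩
  have hfin : (⋃ j ∈ Finset.range J,
      {n | n ∈ o.Ret (D : Set ℕ) ∧ n + g0 * j ∉ o.S}).Finite :=
    Set.Finite.biUnion (Finset.finite_toSet _) (fun j _ => (ht j).1)
  refine ⟨hfin.subset hsub, le_trans (Set.ncard_le_ncard hsub hfin) ?_⟩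
  refine le_trans (Finset.set_ncard_biUnion_le _ _) ?_
  have h1 : ∀ j ∈ Finset.range J, {n | n ∈ o.Ret (D : Set ℕ) ∧ n + g0 * j ∉ o.S}.ncard ≤
      (Fintype.card κ * (Fintype.card ι * (s.a + s.b)) + g0 * J * s.Q.natDegree) * (m + 1) := by
    intro j hj
    refine le_trans (ht j).2 ?_
    have hj' := (Finset.mem_range.1 hj).le
    have h2 : s.a + s.b * m ≤ (s.a + s.b) * (m + 1) := by nlinarith [Nat.zero_le (s.a * m)]
    have h3 : Fintype.card κ * (Fintype.card ι * (s.a + s.b * m)) ≤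
        Fintype.card κ * (Fintype.card ι * ((s.a + s.b) * (m + 1))) :=
      Nat.mul_le_mul_left _ (Nat.mul_le_mul_left _ h2)
    have h4 : g0 * j * s.Q.natDegree ≤ g0 * J * s.Q.natDegree * (m + 1) := by
      have h5 : g0 * j * s.Q.natDegree ≤ g0 * J * s.Q.natDegree :=
        Nat.mul_le_mul_right _ (Nat.mul_le_mul_left _ hj')
      nlinarith [Nat.zero_le (g0 * J * s.Q.natDegree * m)]
    calc _ ≤ Fintype.card κ * (Fintype.card ι * ((s.a + s.b) * (m + 1))) +
          g0 * J * s.Q.natDegree * (m + 1) := Nat.add_le_add h3 h4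
      _ = _ := by ring
  refine le_trans (Finset.sum_le_sum h1) ?_
  simp only [Finset.sum_const, Finset.card_range, smul_eq_mul]
  exact le_of_eq (by ring)

theorem step_bound {s : Sys K ι κ M} (g0 J : ℕ) (o : Sol s) (T G A : ℕ) (hG : 1 ≤ G)
    (D : Finset ℕ) (hDG : ∀ x ∈ D, x ≤ G)
    (hnot : ¬ ∃ g, 1 ≤ g ∧ Per (RatFunc K) s.w (D : Set ℕ) g) (R : ℕ)
    (hR : ∀ y, 1 ≤ y → y ≤ 2 * G →
      Module.finrank (RatFunc K) (sp (RatFunc K) s.w (D : Set ℕ)) <
        Module.finrank (RatFunc K) (sp (RatFunc K) s.w ((insert y D : Finset ℕ) : Set ℕ)) →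
      (o.E g0 J ∩ o.Ret ((insert y D : Finset ℕ) : Set ℕ) ∩ Set.Ico A (A + T)).ncard ≤ R) :
    G * (o.E g0 J ∩ o.Ret (D : Set ℕ) ∩ Set.Ico A (A + T)).ncard ≤ T + G + 2 * G * G * R := by
  classical
  have hfin : ∀ D' : Set ℕ, (o.E g0 J ∩ o.Ret D' ∩ Set.Ico A (A + T)).Finite :=
    fun D' => (Set.finite_Ico A (A + T)).subset Set.inter_subset_right
  let Y : ℕ → Finset ℕ := fun y =>
    if 1 ≤ y ∧ y ≤ 2 * G ∧ Module.finrank (RatFunc K) (sp (RatFunc K) s.w (D : Set ℕ)) <
        Module.finrank (RatFunc K) (sp (RatFunc K) s.w ((insert y D : Finset ℕ) : Set ℕ)) then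
      (hfin ((insert y D : Finset ℕ) : Set ℕ)).toFinset else ∅
  have key := gap_count (hfin (D : Set ℕ)).toFinset A T G hG (by
    intro n hn
    rw [Set.Finite.mem_toFinset] at hn
    exact hn.2) Y R (by
    intro y
    by_cases hy : 1 ≤ y ∧ y ≤ 2 * G ∧
        Module.finrank (RatFunc K) (sp (RatFunc K) s.w (D : Set ℕ)) <
        Module.finrank (RatFunc K) (sp (RatFunc K) s.w ((insert y D : Finset ℕ) : Set ℕ))
    · simp only [Y, if_pos hy]
      rw [← Set.ncard_eq_toFinset_card _ (hfin _)]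
      exact hR y hy.1 hy.2.1 hy.2.2
    · simp only [Y, if_neg hy]
      simp) (by
    intro n hn n' hn' hlt hle
    rw [Set.Finite.mem_toFinset] at hn hn'
    have hg : ¬ Per (RatFunc K) s.w (D : Set ℕ) (n' - n) := fun h => hnot ⟨_, by omega, h⟩
    unfold Per at hg
    push Not at hg
    obtain ⟨x, hx, i, hi⟩ := hg
    have hx' := hDG x hx
    have hlt' : Module.finrank (RatFunc K) (sp (RatFunc K) s.w (D : Set ℕ)) <
        Module.finrank (RatFunc K)
          (sp (RatFunc K) s.w ((insert (x + (n' - n)) D : Finset ℕ) : Set ℕ)) := by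
      apply Submodule.finrank_lt_finrank_of_lt
      refine lt_of_le_of_ne (sp_mono (by
        intro z hz
        exact Finset.mem_insert_of_mem hz)) ?_
      intro heq
      apply hi
      rw [heq]
      exact mem_sp (by simp) i
    refine ⟨x + (n' - n), by omega, by omega, ?_⟩
    have hcond : 1 ≤ x + (n' - n) ∧ x + (n' - n) ≤ 2 * G ∧
        Module.finrank (RatFunc K) (sp (RatFunc K) s.w (D : Set ℕ)) <
        Module.finrank (RatFunc K)
          (sp (RatFunc K) s.w ((insert (x + (n' - n)) D : Finset ℕ) : Set ℕ)) :=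
      ⟨by omega, by omega, hlt'⟩
    simp only [Y, if_pos hcond]
    rw [Set.Finite.mem_toFinset]
    refine ⟨⟨hn.1.1, ?_⟩, hn.2⟩
    intro g hg
    rcases Finset.mem_insert.1 (by exact_mod_cast hg) with h | h
    · subst h
      have := hn'.1.2 x hx
      rw [show n + (x + (n' - n)) = n' + x by omega]
      exact this
    · exact hn.1.2 g h)
  rw [← Set.ncard_eq_toFinset_card _ (hfin _)] at key
  exact key

theorem main_ind (s : Sys K ι κ M) (g0 J : ℕ) (hgood : Good s g0) (k : ℕ) :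
    ∃ C : ℕ, ∀ (o : Sol s) (T G A : ℕ), 2 ≤ G → G ^ (3 * 2 ^ k) ≤ T → ∀ D : Finset ℕ, 0 ∈ D →
      (∀ x ∈ D, x ≤ G) →
      Fintype.card ι ≤ Module.finrank (RatFunc K) (sp (RatFunc K) s.w (D : Set ℕ)) + (k + 1) →
      G * (o.E g0 J ∩ o.Ret (D : Set ℕ) ∩ Set.Ico A (A + T)).ncard ≤ C * T := by
  classical
  obtain ⟨C1, hC1⟩ := per_bound s g0 J hgood
  -- the periodic case
  have hper : ∀ (o : Sol s) (m A T : ℕ) (D : Finset ℕ), 0 ∈ D → (∀ x ∈ D, x ≤ m) →
      (∃ g, 1 ≤ g ∧ Per (RatFunc K) s.w (D : Set ℕ) g) →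
      (o.E g0 J ∩ o.Ret (D : Set ℕ) ∩ Set.Ico A (A + T)).ncard ≤ C1 * (m + 1) := by
    intro o m A T D h0 hm hD
    obtain ⟨h1, h2⟩ := hC1 o m D h0 hm hD
    exact le_trans (Set.ncard_le_ncard Set.inter_subset_left h1) h2
  induction k with
  | zero =>
    refine ⟨2 + 6 * C1, fun o T G A hG hT D h0 hDG hrank => ?_⟩
    have hG3 : G * G * G ≤ T := by
      have : G ^ (3 * 2 ^ 0) = G * G * G := by ring
      rw [← this]; exact hT
    have hG1 : G ≤ G * G := by nlinarith
    have hG2 : G * G ≤ G * G * G := by nlinarith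
    by_cases hD : ∃ g, 1 ≤ g ∧ Per (RatFunc K) s.w (D : Set ℕ) g
    · have h1 := hper o G A T D h0 hDG hD
      calc G * _ ≤ G * (C1 * (G + 1)) := Nat.mul_le_mul_left _ h1
        _ = C1 * (G * G + G) := by ring
        _ ≤ C1 * (T + T) := Nat.mul_le_mul_left _ (by omega)
        _ ≤ (2 + 6 * C1) * T := by nlinarith [Nat.zero_le (C1 * T)]
    · have h1 := step_bound g0 J o T G A (by omega) D hDG hD (C1 * (2 * G + 1)) (by
        intro y hy1 hy2 hlt
        refine hper o (2 * G) A T _ (Finset.mem_insert_of_mem h0) ?_ ?_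
        · intro x hx
          rcases Finset.mem_insert.1 hx with h | h
          · omega
          · have := hDG x h; omega
        · refine ⟨1, le_rfl, ?_⟩
          have htop : sp (RatFunc K) s.w ((insert y D : Finset ℕ) : Set ℕ) = ⊤ := by
            apply Submodule.eq_top_of_finrank_eq
            rw [Module.finrank_fintype_fun_eq_card]
            apply le_antisymm
            · have := Submodule.finrank_le
                (sp (RatFunc K) s.w ((insert y D : Finset ℕ) : Set ℕ))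
              rwa [Module.finrank_fintype_fun_eq_card] at this
            · omega
          intro x _ i
          rw [htop]
          exact Submodule.mem_top)
      calc _ ≤ T + G + 2 * G * G * (C1 * (2 * G + 1)) := h1
        _ = T + G + C1 * (4 * (G * G * G) + 2 * (G * G)) := by ring
        _ ≤ T + T + C1 * (4 * T + 2 * T) :=
          Nat.add_le_add (by omega) (Nat.mul_le_mul_left _ (by omega))
        _ = (2 + 6 * C1) * T := by ring
  | succ k ih =>
    obtain ⟨C, hC⟩ := ih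
    refine ⟨2 + 2 * C + 2 * C1, fun o T G A hG hT D h0 hDG hrank => ?_⟩
    have hpow : (G * G) ^ (3 * 2 ^ k) ≤ T := by
      have : (G * G) ^ (3 * 2 ^ k) = G ^ (3 * 2 ^ (k + 1)) := by
        rw [← pow_two, ← pow_mul]
        congr 1
        ring
      rw [this]; exact hT
    have hGG : G * G ≤ T := by
      refine le_trans ?_ hpow
      exact Nat.le_self_pow (by positivity) _
    have hG1 : G ≤ G * G := by nlinarith
    by_cases hD : ∃ g, 1 ≤ g ∧ Per (RatFunc K) s.w (D : Set ℕ) g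
    · have h1 := hper o G A T D h0 hDG hD
      calc G * _ ≤ G * (C1 * (G + 1)) := Nat.mul_le_mul_left _ h1
        _ = C1 * (G * G + G) := by ring
        _ ≤ C1 * (T + T) := Nat.mul_le_mul_left _ (by omega)
        _ ≤ (2 + 2 * C + 2 * C1) * T := by nlinarith [Nat.zero_le (C1 * T), Nat.zero_le (C * T)]
    · have h1 := step_bound g0 J o T G A (by omega) D hDG hD (C * T / (G * G)) (by
        intro y hy1 hy2 hlt
        have h2 := hC o T (G * G) A (by nlinarith) hpow (insert y D)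
          (Finset.mem_insert_of_mem h0) (by
            intro x hx
            rcases Finset.mem_insert.1 hx with h | h
            · nlinarith
            · have := hDG x h; omega) (by omega)
        exact (Nat.le_div_iff_mul_le (by positivity)).2 (by rw [Nat.mul_comm]; exact h2))
      have h3 : 2 * G * G * (C * T / (G * G)) ≤ 2 * (C * T) := by
        have := Nat.mul_div_le (C * T) (G * G)
        calc _ = 2 * (G * G * (C * T / (G * G))) := by ring
          _ ≤ 2 * (C * T) := Nat.mul_le_mul_left _ this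
      calc _ ≤ T + G + 2 * G * G * (C * T / (G * G)) := h1
        _ ≤ T + T + 2 * (C * T) := by omega
        _ ≤ (2 + 2 * C + 2 * C1) * T := by nlinarith [Nat.zero_le (C1 * T)]

/-- **Return sets of a system**: progressions with one difference, and a sparse set. -/
theorem core (s : Sys K ι κ M) (t : ℕ) (ht : Fintype.card ι ≤ t + 2) :
    ∃ C g0 : ℕ, 1 ≤ g0 ∧ g0 ≤ C ∧ ∀ o : Sol s, ∃ (P : Fin C → Set ℕ) (E : Set ℕ),
      (∀ k, IsProg g0 (P k)) ∧ o.S = (⋃ k, P k) ∪ E ∧ Sparse C (1 / (3 * 2 ^ t)) E := by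
  classical
  obtain ⟨g0, J, hg0, hJ, hcl, hgood⟩ := exists_period (F := RatFunc K) s.shift
  obtain ⟨C1, hC1⟩ := per_bound s g0 J hgood
  obtain ⟨C2, hC2⟩ := main_ind s g0 J hgood t
  set N : ℕ := Fintype.card κ * (Fintype.card ι * (s.a + s.b * (g0 * J))) +
    g0 * J * s.Q.natDegree with hN
  refine ⟨g0 * (N + 1) + C1 + 2 * C2 + 2, g0, hg0, by nlinarith [Nat.zero_le (g0 * N)],
    fun o => ?_⟩
  -- the progressions
  have htr := o.transfer {n | ∃ j < J, n = g0 * j} (g0 * J) (by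
    rintro _ ⟨j, hj, rfl⟩
    exact Nat.mul_le_mul_left _ hj.le) (g0 * J) hcl
  obtain ⟨P, hP1, hP2⟩ := prog_decomp (o.S0 g0 J)
    {n | n ∈ o.Ret {n | ∃ j < J, n = g0 * j} ∧ n + g0 * J ∉ o.S} g0 N hg0 htr.1 htr.2 (by
      intro n hn hn'
      rintro _ ⟨j, hj, rfl⟩
      by_cases hj' : j + 1 < J
      · have := hn (g0 * (j + 1)) ⟨j + 1, hj', rfl⟩
        rw [show n + g0 + g0 * j = n + g0 * (j + 1) by ring]
        exact this
      · have hj2 : j + 1 = J := by omega
        rw [show n + g0 + g0 * j = n + g0 * (j + 1) by ring, hj2]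
        by_contra hcon
        exact hn' ⟨hn, hcon⟩)
  have hS0 : o.S0 g0 J ⊆ o.S := by
    intro n hn
    have := hn (g0 * 0) ⟨0, hJ, rfl⟩
    simpa using this
  refine ⟨fun k => if h : (k : ℕ) < g0 * (N + 1) then P (finProdFinEquiv.symm ⟨k, h⟩) else ∅,
    o.E g0 J, ?_, ?_, ?_⟩
  · intro k
    by_cases h : (k : ℕ) < g0 * (N + 1)
    · simp only [dif_pos h]; exact hP1 _
    · simp only [dif_neg h]; exact isProg_empty _
  · have h1 : (⋃ k : Fin (g0 * (N + 1) + C1 + 2 * C2 + 2),
        if h : (k : ℕ) < g0 * (N + 1) then P (finProdFinEquiv.symm ⟨k, h⟩) else ∅) =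
        o.S0 g0 J := by
      rw [hP2]
      ext n
      simp only [Set.mem_iUnion]
      constructor
      · rintro ⟨k, hk⟩
        by_cases h : (k : ℕ) < g0 * (N + 1)
        · rw [dif_pos h] at hk; exact ⟨_, hk⟩
        · rw [dif_neg h] at hk; exact absurd hk (Set.notMem_empty _)
      · rintro ⟨q, hq⟩
        have hlt := (finProdFinEquiv q).2
        refine ⟨⟨finProdFinEquiv q, by omega⟩, ?_⟩
        rw [dif_pos hlt]
        have e : (⟨((finProdFinEquiv q : Fin (g0 * (N + 1))) : ℕ), hlt⟩ : Fin (g0 * (N + 1))) =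
          finProdFinEquiv q := rfl
        rw [e, Equiv.symm_apply_apply]
        exact hq
    rw [h1]
    ext n
    constructor
    · intro hn
      by_cases hn' : n ∈ o.S0 g0 J
      · exact Or.inl hn'
      · exact Or.inr ⟨hn, hn'⟩
    · rintro (hn | hn)
      · exact hS0 hn
      · exact hn.1
  · intro A T hT
    have hER : o.E g0 J ∩ Set.Ico A (A + T) =
        o.E g0 J ∩ o.Ret ((({0} : Finset ℕ) : Set ℕ)) ∩ Set.Ico A (A + T) := by
      ext n
      constructor
      · rintro ⟨h1, h2⟩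
        refine ⟨⟨h1, ?_⟩, h2⟩
        intro g hg
        have : g = 0 := by simpa using hg
        subst this
        exact h1.1
      · rintro ⟨⟨h1, _⟩, h2⟩
        exact ⟨h1, h2⟩
    have hT1 : (1 : ℝ) ≤ T := by exact_mod_cast hT
    have hT0 : (0 : ℝ) < T := by linarith
    set q : ℝ := 3 * 2 ^ t with hq
    have hq3 : 3 ≤ q := by
      have : (1 : ℝ) ≤ 2 ^ t := one_le_pow₀ (by norm_num)
      rw [hq]; linarith
    have hone : (1 : ℝ) ≤ (T : ℝ) ^ (1 - 1 / q) := by
      apply Real.one_le_rpow hT1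
      have : 1 / q ≤ 1 := by
        rw [div_le_one (by linarith)]; linarith
      linarith
    have hcast : ((g0 * (N + 1) + C1 + 2 * C2 + 2 : ℕ) : ℝ) =
        (g0 * (N + 1) : ℕ) + C1 + 2 * C2 + 2 := by push_cast; ring
    have hg0N : (0 : ℝ) ≤ ((g0 * (N + 1) : ℕ) : ℝ) := Nat.cast_nonneg _
    have hC1' : (0 : ℝ) ≤ C1 := Nat.cast_nonneg _
    have hC2' : (0 : ℝ) ≤ C2 := Nat.cast_nonneg _
    rw [hcast]
    by_cases hper : ∃ g, 1 ≤ g ∧ Per (RatFunc K) s.w ((({0} : Finset ℕ) : Set ℕ)) g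
    · obtain ⟨h1, h2⟩ := hC1 o 0 {0} (by simp) (by simp) hper
      rw [hER]
      have h3 := le_trans (Set.ncard_le_ncard (Set.inter_subset_left (t := Set.Ico A (A + T))) h1)
        h2
      have h4 : ((o.E g0 J ∩ o.Ret ((({0} : Finset ℕ) : Set ℕ)) ∩ Set.Ico A (A + T)).ncard : ℝ) ≤
          C1 := by
        have : (o.E g0 J ∩ o.Ret ((({0} : Finset ℕ) : Set ℕ)) ∩ Set.Ico A (A + T)).ncard ≤ C1 := by
          simpa using h3
        exact_mod_cast this
      calc _ ≤ (C1 : ℝ) := h4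
        _ ≤ ((g0 * (N + 1) : ℕ) + C1 + 2 * C2 + 2) * 1 := by linarith
        _ ≤ _ := mul_le_mul_of_nonneg_left hone (by linarith)
    · have hrank : Fintype.card ι ≤ Module.finrank (RatFunc K)
          (sp (RatFunc K) s.w ((({0} : Finset ℕ) : Set ℕ))) + (t + 1) := by
        have h1 : 1 ≤ Module.finrank (RatFunc K)
            (sp (RatFunc K) s.w ((({0} : Finset ℕ) : Set ℕ))) := by
          by_contra hcon
          apply hper
          have h2 : sp (RatFunc K) s.w ((({0} : Finset ℕ) : Set ℕ)) = ⊥ := by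
            rw [← Submodule.finrank_eq_zero]; omega
          refine ⟨1, le_rfl, ?_⟩
          intro x hx i
          have hx0 : x = 0 := by simpa using hx
          subst hx0
          have h3 : s.w 0 i ∈ sp (RatFunc K) s.w (((∅ : Finset ℕ) : Set ℕ)) := by
            have h4 : s.w 0 i ∈ sp (RatFunc K) s.w ((({0} : Finset ℕ) : Set ℕ)) :=
              mem_sp (by simp) i
            rw [h2, Submodule.mem_bot] at h4
            rw [h4]; exact Submodule.zero_mem _
          have h5 := s.shift ∅ 0 i 1 h3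
          exact sp_mono (by simp) h5
        omega
      set G : ℕ := ⌊(T : ℝ) ^ (1 / q)⌋₊ with hG
      have hpos : 0 < (T : ℝ) ^ (1 / q) := Real.rpow_pos_of_pos hT0 _
      have hGle : (G : ℝ) ≤ (T : ℝ) ^ (1 / q) := Nat.floor_le hpos.le
      have hGlt : (T : ℝ) ^ (1 / q) < G + 1 := Nat.lt_floor_add_one _
      have hprod : (T : ℝ) ^ (1 / q) * (T : ℝ) ^ (1 - 1 / q) = T := by
        rw [← Real.rpow_add hT0]
        simp
      by_cases hG2 : 2 ≤ G
      · have hpow : G ^ (3 * 2 ^ t) ≤ T := by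
          have h1 : ((G : ℝ)) ^ (3 * 2 ^ t) ≤ T := by
            calc ((G : ℝ)) ^ (3 * 2 ^ t) ≤ ((T : ℝ) ^ (1 / q)) ^ (3 * 2 ^ t) :=
                  pow_le_pow_left₀ (Nat.cast_nonneg _) hGle _
              _ = T := by
                rw [← Real.rpow_natCast, ← Real.rpow_mul hT0.le]
                have : 1 / q * ((3 * 2 ^ t : ℕ) : ℝ) = 1 := by
                  push_cast
                  rw [← hq]
                  field_simp
                rw [this, Real.rpow_one]
          exact_mod_cast h1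
        have h1 := hC2 o T G A hG2 hpow {0} (by simp) (by simp) hrank
        rw [← hER] at h1
        have h2 : (G : ℝ) * ((o.E g0 J ∩ Set.Ico A (A + T)).ncard : ℝ) ≤ C2 * T := by
          exact_mod_cast h1
        have hG0 : (0 : ℝ) < G := by
          have : (2 : ℝ) ≤ G := by exact_mod_cast hG2
          linarith
        have h3 : (T : ℝ) ≤ 2 * G * (T : ℝ) ^ (1 - 1 / q) := by
          have h4 : (T : ℝ) ^ (1 / q) ≤ 2 * G := by
            have : (2 : ℝ) ≤ G := by exact_mod_cast hG2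
            linarith
          calc (T : ℝ) = (T : ℝ) ^ (1 / q) * (T : ℝ) ^ (1 - 1 / q) := hprod.symm
            _ ≤ 2 * G * (T : ℝ) ^ (1 - 1 / q) :=
              mul_le_mul_of_nonneg_right h4 (by linarith)
        have h5 : (G : ℝ) * ((o.E g0 J ∩ Set.Ico A (A + T)).ncard : ℝ) ≤
            G * (2 * C2 * (T : ℝ) ^ (1 - 1 / q)) := by
          calc _ ≤ (C2 : ℝ) * T := h2
            _ ≤ C2 * (2 * G * (T : ℝ) ^ (1 - 1 / q)) := mul_le_mul_of_nonneg_left h3 hC2'
            _ = _ := by ring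
        have h6 := le_of_mul_le_mul_left h5 hG0
        calc _ ≤ 2 * (C2 : ℝ) * (T : ℝ) ^ (1 - 1 / q) := h6
          _ ≤ _ := mul_le_mul_of_nonneg_right (by linarith) (by linarith)
      · have hT2 : (T : ℝ) ^ (1 / q) ≤ 2 := by
          have : (G : ℝ) ≤ 1 := by exact_mod_cast (by omega : G ≤ 1)
          linarith
        have h1 : (o.E g0 J ∩ Set.Ico A (A + T)).ncard ≤ T := by
          have := Set.ncard_le_ncard (Set.inter_subset_right :
            o.E g0 J ∩ Set.Ico A (A + T) ⊆ Set.Ico A (A + T)) (Set.finite_Ico _ _)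
          rw [← Finset.coe_Ico, Set.ncard_coe_finset, Nat.card_Ico] at this
          simpa using this
        calc ((o.E g0 J ∩ Set.Ico A (A + T)).ncard : ℝ) ≤ T := by exact_mod_cast h1
          _ = (T : ℝ) ^ (1 / q) * (T : ℝ) ^ (1 - 1 / q) := hprod.symm
          _ ≤ 2 * (T : ℝ) ^ (1 - 1 / q) := mul_le_mul_of_nonneg_right hT2 (by linarith)
          _ ≤ _ := mul_le_mul_of_nonneg_right (by linarith) (by linarith)

end Pool.Agent.Q170.RS
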