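import Mathlib
import Pool.Agent.Q170.RS.Core

/-!
# Linear systems over an affine map of the line
-/

set_option autoImplicit false

namespace Pool.Agent.Q170.RS

open Polynomial

variable {K : Type*} [Field K]

/-- composition with `α X + β` -/
noncomputable def sig (α β : K) : K[X] →+* K[X] := Polynomial.compRingHom (C α * X + C β)

theorem sig_apply (α β : K) (f : K[X]) : sig α β f = f.comp (C α * X + C β) := rfl

theorem sig_eval (α β : K) (f : K[X]) (x : K) : (sig α β f).eval x = f.eval (α * x + β) := by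
  rw [sig_apply, Polynomial.eval_comp]
  simp

theorem natDegree_lin {α : K} (hα : α ≠ 0) (β : K) : (C α * X + C β).natDegree = 1 :=
  Polynomial.natDegree_linear hα

theorem sig_natDegree {α : K} (hα : α ≠ 0) (β : K) (f : K[X]) :
    (sig α β f).natDegree = f.natDegree := by
  rw [sig_apply, Polynomial.natDegree_comp, natDegree_lin hα, mul_one]

theorem sig_injective {α : K} (hα : α ≠ 0) (β : K) : Function.Injective (sig α β) := by
  intro f g h
  have h1 : (sig α β (f - g)) = 0 := by rw [map_sub, h, sub_self]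
  have h2 : (sig α⁻¹ (-(α⁻¹ * β))) (sig α β (f - g)) = 0 := by rw [h1, map_zero]
  have h3 : (sig α⁻¹ (-(α⁻¹ * β))) (sig α β (f - g)) = f - g := by
    rw [sig_apply, sig_apply, Polynomial.comp_assoc]
    have : (C α * X + C β : K[X]).comp (C α⁻¹ * X + C (-(α⁻¹ * β))) = X := by
      simp only [add_comp, mul_comp, C_comp, X_comp, mul_add, ← mul_assoc, ← C_mul,
        mul_inv_cancel₀ hα, C_1, one_mul]
      rw [add_assoc, ← C_add]
      have : α * -(α⁻¹ * β) + β = 0 := by field_simp; ring
      rw [this, C_0, add_zero]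
    rw [this, Polynomial.comp_X]
  rw [h3] at h2
  exact sub_eq_zero.1 h2

variable {ι κ : Type*} [Fintype ι] [DecidableEq ι] [Fintype κ]

/-- the shift on the functionals -/
noncomputable def matT (α β : K) (N : Matrix ι ι K[X]) : (ι → K[X]) →+ (ι → K[X]) where
  toFun c := fun j => ∑ i, sig α β (c i) * N i j
  map_zero' := by funext j; simp
  map_add' c d := by funext j; simp [add_mul, Finset.sum_add_distrib]

theorem matT_deg {α : K} (hα : α ≠ 0) (β : K) (N : Matrix ι ι K[X]) (b : ℕ)
    (hN : ∀ i j, (N i j).natDegree ≤ b) (c : ι → K[X]) (a : ℕ) (hc : ∀ i, (c i).natDegree ≤ a)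
    (g : ℕ) : ∀ j, ((matT α β N)^[g] c j).natDegree ≤ a + b * g := by
  induction g generalizing c a with
  | zero => intro j; simpa using hc j
  | succ g ih =>
    intro j
    rw [Function.iterate_succ_apply]
    have h1 : ∀ i, (matT α β N c i).natDegree ≤ a + b := by
      intro i
      refine Polynomial.natDegree_sum_le_of_forall_le _ _ (fun k _ => ?_)
      refine le_trans Polynomial.natDegree_mul_le ?_
      rw [sig_natDegree hα]
      exact Nat.add_le_add (hc k) (hN k i)
    refine le_trans (ih _ (a + b) h1 j) (le_of_eq (by ring))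

/-- the system of a matrix -/
noncomputable def matSys {α : K} (hα : α ≠ 0) (β : K) (N : Matrix ι ι K[X]) (Q : K[X])
    (hQ : Q ≠ 0) (c : κ → ι → K[X]) : Sys K ι κ (ι → K[X]) where
  σ := sig α β
  σinj := sig_injective hα β
  T := matT α β N
  semi f u := by
    funext j
    simp only [matT, AddMonoidHom.coe_mk, ZeroHom.coe_mk, Pi.smul_apply, smul_eq_mul, map_mul,
      Finset.mul_sum, mul_assoc]
  P := ⊤
  TP _ _ := Submodule.mem_top
  co := LinearMap.id
  coinj _ _ h := h
  c := c
  cP _ := Submodule.mem_top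
  a := Finset.univ.sup (fun p : κ × ι => (c p.1 p.2).natDegree)
  b := Finset.univ.sup (fun p : ι × ι => (N p.1 p.2).natDegree)
  deg g i j := by
    refine matT_deg hα β N _ (fun i j => ?_) (c i) _ (fun j => ?_) g j
    · exact Finset.le_sup (f := fun p : ι × ι => (N p.1 p.2).natDegree) (Finset.mem_univ (i, j))
    · exact Finset.le_sup (f := fun p : κ × ι => (c p.1 p.2).natDegree) (Finset.mem_univ (i, j))
  Q := Q
  Q0 := hQ

/-- orbits of the system of a matrix -/
noncomputable def matSol {α : K} (hα : α ≠ 0) (β : K) (N : Matrix ι ι K[X]) (Q : K[X])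
    (hQ : Q ≠ 0) (c : κ → ι → K[X]) (x : ℕ → K) (hx : Function.Injective x)
    (hx1 : ∀ n, x (n + 1) = α * x n + β) (u : ℕ → ι → K)
    (hu : ∀ n i, Q.eval (x n) * u (n + 1) i = ∑ j, (N i j).eval (x n) * u n j) :
    Sol (matSys hα β N Q hQ c) where
  x := x
  inj := hx
  xσ f n := by rw [hx1 n]; exact sig_eval α β f (x n)
  p n :=
    { toFun := fun h => ∑ i, (h i).eval (x n) * u n i
      map_zero' := by simp
      map_add' := fun h h' => by simp [add_mul, Finset.sum_add_distrib] }
  smul n f h := by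
    simp [Finset.mul_sum, mul_assoc]
  step n h := by
    change ∑ j, (∑ i, sig α β (h i) * N i j).eval (x n) * u n j =
      Q.eval (x n) * ∑ i, (h i).eval (x (n + 1)) * u (n + 1) i
    simp only [Polynomial.eval_finset_sum, Polynomial.eval_mul, sig_eval, Finset.sum_mul,
      Finset.mul_sum]
    rw [Finset.sum_comm]
    refine Finset.sum_congr rfl (fun i _ => ?_)
    rw [← hx1 n]
    have h1 := hu n i
    calc ∑ j, (h i).eval (x (n + 1)) * (N i j).eval (x n) * u n j =
          (h i).eval (x (n + 1)) * ∑ j, (N i j).eval (x n) * u n j := by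
          rw [Finset.mul_sum]
          exact Finset.sum_congr rfl (fun j _ => by ring)
      _ = _ := by rw [← h1]; ring

/-- the progressions and the sparse set -/
def Decomp (C : ℕ) (g0 : ℕ) (δ : ℝ) (S : Set ℕ) : Prop :=
  ∃ (P : Fin C → Set ℕ) (E : Set ℕ), (∀ k, IsProg g0 (P k)) ∧ S = (⋃ k, P k) ∪ E ∧ Sparse C δ E

/-- **Return sets of linear systems.** -/
theorem linear {α : K} (hα : α ≠ 0) (β : K) (N : Matrix ι ι K[X]) (Q : K[X])
    (hQ : Q ≠ 0) (c : κ → ι → K[X]) (t : ℕ) (ht : Fintype.card ι ≤ t + 2) :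
    ∃ C g0 : ℕ, 1 ≤ g0 ∧ g0 ≤ C ∧ ∀ x : ℕ → K, Function.Injective x →
      (∀ n, x (n + 1) = α * x n + β) → ∀ u : ℕ → ι → K,
      (∀ n i, Q.eval (x n) * u (n + 1) i = ∑ j, (N i j).eval (x n) * u n j) →
      Decomp C g0 (1 / (3 * 2 ^ t)) {n | ∀ k, ∑ i, (c k i).eval (x n) * u n i = 0} := by
  obtain ⟨C, g0, h1, h2, h3⟩ := core (matSys hα β N Q hQ c) t ht
  refine ⟨C, g0, h1, h2, fun x hx hx1 u hu => ?_⟩
  exact h3 (matSol hα β N Q hQ c x hx hx1 u hu)

end Pool.Agent.Q170.RS
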