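import Mathlib
import Pool.Agent.Q170.RS.Mat

/-!
# Linear recurrences with polynomial coefficients and D-finite series
-/

set_option autoImplicit false

namespace Pool.Agent.Q170.RS

open Polynomial

variable {K : Type*} [Field K]

/-- **Zero sets of P-recursive sequences.** -/
theorem prec [CharZero K] (t : ℕ) (q : ℕ → K[X]) (hq : ∃ u, q u ≠ 0)
    (hq0 : ∀ u, t + 2 < u → q u = 0) :
    ∃ C g0 : ℕ, 1 ≤ g0 ∧ g0 ≤ C ∧ ∀ (n₀ : ℕ) (a : ℕ → K),
      (∀ n, n₀ ≤ n → ∑ u ∈ Finset.range (t + 3), (q u).eval (n : K) * a (n + u) = 0) →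
      Decomp C g0 (1 / (3 * 2 ^ t)) {n | a (n₀ + n) = 0} := by
  classical
  -- the leading coefficient
  have hfin : {u | q u ≠ 0}.Finite := (Set.finite_le_nat (t + 2)).subset (fun u hu => by
    by_contra h
    exact hu (hq0 u (not_le.1 h)))
  obtain ⟨ρ, hρ, hmax⟩ := hfin.exists_maximal hq
  have hρ' : q ρ ≠ 0 := hρ
  have hρt : ρ ≤ t + 2 := by
    by_contra h
    exact hρ' (hq0 ρ (not_le.1 h))
  have hgt : ∀ u, ρ < u → q u = 0 := by
    intro u hu
    by_contra h
    have := hmax h hu.le
    omega
  obtain ⟨s, hs⟩ : ∃ s, t + 2 = s + ρ := ⟨t + 2 - ρ, by omega⟩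
  let Q : K[X] := (q ρ).comp (X + C (s : K))
  have hQ : Q ≠ 0 := by
    intro h
    apply hρ'
    have h1 : Q.comp (X - C (s : K)) = q ρ := by
      simp only [Q, Polynomial.comp_assoc]
      simp
    rw [← h1, h, Polynomial.zero_comp]
  let N : Matrix (Fin (t + 2)) (Fin (t + 2)) K[X] := Matrix.of fun i j =>
    if (i : ℕ) + 1 < t + 2 then (if (j : ℕ) = i + 1 then Q else 0)
    else (if s ≤ (j : ℕ) then - (q (j - s)).comp (X + C (s : K)) else 0)
  obtain ⟨C0, g0, h1, h2, h3⟩ := linear (α := (1 : K)) one_ne_zero 1 N Q hQ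
    (fun (_ : Unit) (i : Fin (t + 2)) => if (i : ℕ) = 0 then (1 : K[X]) else 0) t (by simp)
  refine ⟨C0, g0, h1, h2, fun n₀ a ha => ?_⟩
  have hinj : Function.Injective (fun n : ℕ => ((n₀ + n : ℕ) : K)) := by
    intro n n' h
    have h' : ((n₀ + n : ℕ) : K) = ((n₀ + n' : ℕ) : K) := h
    have : n₀ + n = n₀ + n' := Nat.cast_injective h'
    omega
  have h4 := h3 (fun n => ((n₀ + n : ℕ) : K)) hinj (fun n => by push_cast; ring)
    (fun n i => a (n₀ + n + i)) (by
    intro n i
    simp only [N, Matrix.of_apply]
    by_cases hi : (i : ℕ) + 1 < t + 2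
    · simp only [if_pos hi]
      rw [Finset.sum_eq_single (⟨(i : ℕ) + 1, hi⟩ : Fin (t + 2))]
      · rw [if_pos rfl]
        rw [show n₀ + (n + 1) + (i : ℕ) = n₀ + n + ((i : ℕ) + 1) by ring]
      · intro j _ hj
        rw [if_neg]
        · simp
        · intro h
          exact hj (Fin.ext h)
      · intro h
        exact absurd (Finset.mem_univ _) h
    · simp only [if_neg hi]
      have hi' : (i : ℕ) = t + 1 := by have := i.2; omega
      -- the recurrence at n₀ + n + s
      have h5 := ha (n₀ + n + s) (by omega)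
      have h6 : ∑ u ∈ Finset.range (t + 3), (q u).eval ((n₀ + n + s : ℕ) : K) *
          a (n₀ + n + s + u) = ∑ u ∈ Finset.range (ρ + 1),
            (q u).eval ((n₀ + n + s : ℕ) : K) * a (n₀ + n + s + u) := by
        symm
        apply Finset.sum_subset
        · intro u hu
          rw [Finset.mem_range] at hu ⊢
          omega
        · intro u _ hu
          rw [Finset.mem_range, not_lt] at hu
          rw [hgt u (by omega)]
          simp
      rw [h6, Finset.sum_range_succ] at h5
      have h7 : ∑ j : Fin (t + 2), ((if s ≤ (j : ℕ) then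
          - (q ((j : ℕ) - s)).comp (X + C (s : K)) else 0) : K[X]).eval ((n₀ + n : ℕ) : K) *
          a (n₀ + n + j) = - ∑ u ∈ Finset.range ρ,
            (q u).eval ((n₀ + n + s : ℕ) : K) * a (n₀ + n + s + u) := by
        rw [Finset.sum_fin_eq_sum_range]
        rw [hs, Finset.sum_range_add]
        rw [Finset.sum_eq_zero, zero_add, ← Finset.sum_neg_distrib]
        · refine Finset.sum_congr rfl (fun u hu => ?_)
          rw [Finset.mem_range] at hu
          rw [dif_pos (by omega)]
          simp only
          rw [if_pos (by omega), show s + u - s = u by omega]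
          simp only [Polynomial.eval_neg, Polynomial.eval_comp, Polynomial.eval_add,
            Polynomial.eval_X, Polynomial.eval_C]
          rw [show n₀ + n + (s + u) = n₀ + n + s + u by ring]
          push_cast
          ring
        · intro u hu
          rw [Finset.mem_range] at hu
          rw [dif_pos (by omega)]
          simp only
          rw [if_neg (by omega)]
          simp
      rw [h7]
      have h8 : Q.eval ((n₀ + n : ℕ) : K) = (q ρ).eval ((n₀ + n + s : ℕ) : K) := by
        simp only [Q, Polynomial.eval_comp, Polynomial.eval_add, Polynomial.eval_X,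
          Polynomial.eval_C]
        push_cast
        ring_nf
      rw [h8, hi', show n₀ + (n + 1) + (t + 1) = n₀ + n + s + ρ by omega]
      linear_combination h5)
  convert h4 using 1
  ext n
  simp only [Set.mem_setOf_eq, forall_const]
  rw [Finset.sum_eq_single (⟨0, by omega⟩ : Fin (t + 2))]
  · simp
  · intro j _ hj
    rw [if_neg]
    · simp
    · intro h
      exact hj (Fin.ext h)
  · intro h
    exact absurd (Finset.mem_univ _) h

theorem coeff_iter (a : ℕ → K) (i n : ℕ) :
    PowerSeries.coeff n ((⇑(PowerSeries.derivative K))^[i] (PowerSeries.mk a)) =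
      (ascPochhammer K i).eval ((n : K) + 1) * a (n + i) := by
  induction i generalizing a with
  | zero => simp
  | succ i ih =>
    rw [Function.iterate_succ_apply]
    have h1 : PowerSeries.derivative K (PowerSeries.mk a) =
        PowerSeries.mk (fun n => a (n + 1) * ((n : K) + 1)) := by
      ext n
      rw [PowerSeries.coeff_derivative]
      simp
    rw [h1, ih, ascPochhammer_succ_eval]
    rw [show n + i + 1 = n + (i + 1) by ring]
    push_cast
    ring

end Pool.Agent.Q170.RS
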