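import Mathlib
import Pool.Agent.Q170.RS.Rec

/-!
# D-finite series
-/

set_option autoImplicit false

namespace Pool.Agent.Q170.RS

open Polynomial

variable {K : Type*} [Field K]

/-- one summand of a coefficient of the recurrence -/
noncomputable def piece (d i j : ℕ) (c : K) : K[X] :=
  Polynomial.C c * (ascPochhammer K i).comp (X + Polynomial.C ((d - j + 1 : ℕ) : K))

theorem piece_monic (i k : ℕ) :
    ((ascPochhammer K i).comp (X + Polynomial.C ((k : ℕ) : K))).Monic :=
  (monic_ascPochhammer K i).comp_X_add_C _

theorem piece_natDegree (i k : ℕ) :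
    ((ascPochhammer K i).comp (X + Polynomial.C ((k : ℕ) : K))).natDegree = i := by
  rw [Polynomial.natDegree_comp, Polynomial.natDegree_X_add_C, mul_one, ascPochhammer_natDegree]

/-- **Zero sets of the coefficients of D-finite series.** -/
theorem dfinite [CharZero K] (t m d : ℕ) (p : Fin (m + 1) → K[X]) (hp : ∃ i, p i ≠ 0)
    (hd : ∀ i, (p i).natDegree ≤ d) (hmd : m + d ≤ t + 2) :
    ∃ C g0 : ℕ, 1 ≤ g0 ∧ g0 ≤ C ∧ ∀ a : ℕ → K,
      ∑ i : Fin (m + 1), ((p i : K[X]) : PowerSeries K) *
        (⇑(PowerSeries.derivative K))^[(i : ℕ)] (PowerSeries.mk a) = 0 →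
      Decomp C g0 (1 / (3 * 2 ^ t)) {n | a n = 0} := by
  classical
  let q : ℕ → K[X] := fun u => ∑ i : Fin (m + 1), ∑ j ∈ Finset.range (d + 1),
    if d - j + i = u then piece d i j ((p i).coeff j) else 0
  have hq0 : ∀ u, t + 2 < u → q u = 0 := by
    intro u hu
    refine Finset.sum_eq_zero (fun i _ => Finset.sum_eq_zero (fun j _ => ?_))
    rw [if_neg]
    have := i.2
    omega
  have hq : ∃ u, q u ≠ 0 := by
    have hfin : {i | p i ≠ 0}.Finite := Set.toFinite _
    obtain ⟨i0, hi0, hmax⟩ := hfin.exists_maximal hp
    have hi0' : p i0 ≠ 0 := hi0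
    have hgt : ∀ i, i0 < i → p i = 0 := by
      intro i hi
      by_contra h
      exact absurd (hmax h hi.le) (not_le.2 hi)
    refine ⟨d - (p i0).natDegree + i0, fun h => ?_⟩
    have hdeg := hd i0
    have h1 : (q (d - (p i0).natDegree + i0)).coeff i0 = (p i0).leadingCoeff := by
      simp only [q, Polynomial.finset_sum_coeff]
      rw [Finset.sum_eq_single i0]
      · rw [Finset.sum_eq_single (p i0).natDegree]
        · rw [if_pos rfl]
          unfold piece
          rw [Polynomial.coeff_C_mul]
          have h2 := piece_monic (K := K) i0 (d - (p i0).natDegree + 1)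
          have h3 := piece_natDegree (K := K) i0 (d - (p i0).natDegree + 1)
          have h4 := h2.coeff_natDegree
          rw [h3] at h4
          rw [h4, mul_one]
          rfl
        · intro j hj hne
          rw [Finset.mem_range] at hj
          rw [if_neg (by omega), Polynomial.coeff_zero]
        · intro h'
          exact absurd (Finset.mem_range.2 (by omega)) h'
      · intro i _ hne
        refine Finset.sum_eq_zero (fun j hj => ?_)
        by_cases hcond : d - j + (i : ℕ) = d - (p i0).natDegree + i0
        · rw [if_pos hcond]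
          unfold piece
          rcases lt_or_gt_of_ne hne with hlt | hlt
          · have h9 : ((ascPochhammer K (i : ℕ)).comp
                (X + Polynomial.C ((d - j + 1 : ℕ) : K))).coeff i0 = 0 := by
              apply Polynomial.coeff_eq_zero_of_natDegree_lt
              rw [piece_natDegree]
              exact hlt
            rw [Polynomial.coeff_C_mul, h9, mul_zero]
          · rw [hgt i hlt]
            simp
        · rw [if_neg hcond, Polynomial.coeff_zero]
      · intro h'
        exact absurd (Finset.mem_univ _) h'
    rw [h, Polynomial.coeff_zero] at h1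
    exact hi0' (Polynomial.leadingCoeff_eq_zero.1 h1.symm)
  obtain ⟨C0, g0, h1, h2, h3⟩ := prec t q hq hq0
  refine ⟨C0, g0, h1, h2, fun a ha => ?_⟩
  have h4 := h3 0 a (by
    intro n _
    have h5 := congrArg (PowerSeries.coeff (n + d)) ha
    rw [map_sum, map_zero] at h5
    rw [← h5]
    simp only [q, Polynomial.eval_finset_sum, Finset.sum_mul]
    rw [Finset.sum_comm]
    refine Finset.sum_congr rfl (fun i _ => ?_)
    rw [PowerSeries.coeff_mul, Finset.Nat.sum_antidiagonal_eq_sum_range_succ_mk]
    rw [Finset.sum_comm]
    have h6 : ∑ j ∈ Finset.range (n + d + 1),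
        PowerSeries.coeff j ((p i : K[X]) : PowerSeries K) *
          PowerSeries.coeff (n + d - j) ((⇑(PowerSeries.derivative K))^[(i : ℕ)]
            (PowerSeries.mk a)) =
        ∑ j ∈ Finset.range (d + 1),
        PowerSeries.coeff j ((p i : K[X]) : PowerSeries K) *
          PowerSeries.coeff (n + d - j) ((⇑(PowerSeries.derivative K))^[(i : ℕ)]
            (PowerSeries.mk a)) := by
      symm
      apply Finset.sum_subset
      · intro j hj
        rw [Finset.mem_range] at hj ⊢
        omega
      · intro j _ hj
        rw [Finset.mem_range, not_lt] at hj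
        rw [Polynomial.coeff_coe, Polynomial.coeff_eq_zero_of_natDegree_lt, zero_mul]
        exact lt_of_le_of_lt (hd i) (by omega)
    have h7 : n + d + 1 = (n + d).succ := rfl
    rw [h7] at h6
    rw [h6]
    refine Finset.sum_congr rfl (fun j hj => ?_)
    rw [Finset.mem_range] at hj
    have hu : d - j + (i : ℕ) ∈ Finset.range (t + 3) := by
      have := i.2
      rw [Finset.mem_range]; omega
    rw [Finset.sum_eq_single (d - j + (i : ℕ))]
    · rw [if_pos rfl, coeff_iter, Polynomial.coeff_coe]
      unfold piece
      rw [Polynomial.eval_mul, Polynomial.eval_C, Polynomial.eval_comp]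
      simp only [Polynomial.eval_add, Polynomial.eval_X, Polynomial.eval_C]
      have h8 : n + d - j = n + (d - j) := by omega
      rw [h8, show n + (d - j + (i : ℕ)) = n + (d - j) + i by ring]
      push_cast
      ring
    · intro u _ hne
      rw [if_neg (Ne.symm hne)]
      simp
    · intro h'
      exact absurd hu h')
  simpa using h4

end Pool.Agent.Q170.RS
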