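import Mathlib
import Pool.Agent.Q170.RS.Mat

/-!
# Polynomial functions of the solutions of linear systems
-/

set_option autoImplicit false

namespace Pool.Agent.Q170.RS

open Polynomial

variable {K : Type*} [Field K]

/-- the value of a polynomial in `x` and `y` -/
noncomputable def val {r : ℕ} (x : K) (v : Fin r → K) (h : MvPolynomial (Fin r) K[X]) : K :=
  MvPolynomial.eval₂ (Polynomial.evalRingHom x) v h

theorem exists_word {r : ℕ} (m : ℕ) (s : Fin r →₀ ℕ) (hs : s.degree ≤ m) :
    ∃ I : Fin m → Option (Fin r), ∀ v : Fin r → K,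
      ∏ k, (I k).elim 1 v = ∏ i ∈ s.support, v i ^ s i := by
  classical
  induction m generalizing s with
  | zero =>
    have : s = 0 := by
      rw [← Finsupp.degree_eq_zero_iff]; omega
    subst this
    exact ⟨fun _ => none, fun v => by simp⟩
  | succ m ih =>
    by_cases h0 : s = 0
    · subst h0
      exact ⟨fun _ => none, fun v => by simp⟩
    · obtain ⟨i, hi⟩ := Finsupp.support_nonempty_iff.2 h0
      have hi' : s i ≠ 0 := Finsupp.mem_support_iff.1 hi
      have hs' : Finsupp.single i 1 + (s - Finsupp.single i 1) = s := by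
        ext j
        by_cases hj : j = i
        · subst hj; simp; omega
        · simp [hj]
      have hdeg : (s - Finsupp.single i 1).degree ≤ m := by
        have h1 : (Finsupp.single i 1 + (s - Finsupp.single i 1)).degree = s.degree := by rw [hs']
        rw [map_add, Finsupp.degree_single] at h1
        omega
      obtain ⟨I, hI⟩ := ih _ hdeg
      refine ⟨Fin.cons (some i) I, fun v => ?_⟩
      rw [Fin.prod_univ_succ]
      simp only [Fin.cons_zero, Fin.cons_succ, Option.elim_some]
      rw [hI v]
      have h2 : ∀ s : Fin r →₀ ℕ, ∏ i ∈ s.support, v i ^ s i = s.prod (fun i e => v i ^ e) :=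
        fun s => rfl
      rw [h2, h2]
      conv_rhs => rw [← hs']
      rw [Finsupp.prod_add_index' (by simp) (by intros; rw [pow_add])]
      congr 1
      rw [Finsupp.prod_single_index (by simp), pow_one]

theorem exists_functional {r : ℕ} (m : ℕ) (h : MvPolynomial (Fin r) K[X])
    (hm : h.totalDegree ≤ m) : ∃ c : (Fin m → Option (Fin r)) → K[X],
      ∀ (x : K) (v : Fin r → K), val x v h = ∑ I, (c I).eval x * ∏ k, (I k).elim 1 v := by
  classical
  have hw : ∀ s ∈ h.support, ∃ I : Fin m → Option (Fin r), ∀ v : Fin r → K,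
      ∏ k, (I k).elim 1 v = ∏ i ∈ s.support, v i ^ s i := by
    intro s hs
    refine exists_word m s (le_trans ?_ hm)
    exact MvPolynomial.le_totalDegree hs
  choose! W hW using hw
  refine ⟨fun I => ∑ s ∈ h.support, if W s = I then h.coeff s else 0, fun x v => ?_⟩
  unfold val
  rw [MvPolynomial.eval₂_eq]
  simp only [Polynomial.eval_finset_sum, Finset.sum_mul]
  rw [Finset.sum_comm]
  refine Finset.sum_congr rfl (fun s hs => ?_)
  rw [Finset.sum_eq_single (W s)]
  · rw [if_pos rfl, hW s hs v]
    rfl
  · intro I _ hI
    rw [if_neg (Ne.symm hI)]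
    simp
  · intro h'
    exact absurd (Finset.mem_univ _) h'

/-- the matrix with the additional coordinate one -/
noncomputable def optMat {r : ℕ} (N : Matrix (Fin r) (Fin r) K[X]) (Q : K[X]) :
    Matrix (Option (Fin r)) (Option (Fin r)) K[X] :=
  Matrix.of fun o o' => match o, o' with
    | none, none => Q
    | none, some _ => 0
    | some _, none => 0
    | some i, some j => N i j

/-- the multiset of the values of a word -/
def symOf {J : Type*} {m : ℕ} (I : Fin m → J) : Sym J m :=
  ⟨Multiset.map I Finset.univ.val, by simp⟩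

theorem symOf_surjective {J : Type*} (m : ℕ) : Function.Surjective (symOf : (Fin m → J) → Sym J m) := by
  rintro ⟨s, hs⟩
  induction s using Quotient.inductionOn with
  | h l =>
    have hl : l.length = m := hs
    subst hl
    refine ⟨l.get, ?_⟩
    apply Subtype.ext
    show Multiset.map l.get Finset.univ.val = (l : Multiset J)
    rw [Fin.univ_val_map, List.ofFn_get]

theorem prod_symOf {J L : Type*} [CommMonoid L] {m : ℕ} (I : Fin m → J) (f : J → L) :
    ∏ k, f (I k) = (Multiset.map f (symOf I).1).prod := by
  unfold symOf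
  rw [Multiset.map_map]
  rfl

/-- a word with a given multiset of values -/
noncomputable def rep {J : Type*} {m : ℕ} (s : Sym J m) : Fin m → J :=
  Classical.choose (symOf_surjective m s)

theorem symOf_rep {J : Type*} {m : ℕ} (s : Sym J m) : symOf (rep s) = s :=
  Classical.choose_spec (symOf_surjective m s)

open Classical in
/-- the symmetric power of a matrix -/
noncomputable def symMat {J : Type*} [Fintype J] (m : ℕ) (N : Matrix J J K[X]) :
    Matrix (Sym J m) (Sym J m) K[X] :=
  Matrix.of fun s s' => ∑ I ∈ Finset.univ.filter (fun I : Fin m → J => symOf I = s'),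
    ∏ k, N (rep s k) (I k)

/-- **Return sets for polynomial conditions on the solutions of linear systems.** -/
theorem polynomial {α : K} (hα : α ≠ 0) (β : K) {r : ℕ} (N : Matrix (Fin r) (Fin r) K[X])
    (Q : K[X]) (hQ : Q ≠ 0) (m : ℕ) (H : Set (MvPolynomial (Fin r) K[X]))
    (hH : ∀ h ∈ H, h.totalDegree ≤ m) :
    ∃ C g0 : ℕ, 1 ≤ g0 ∧ g0 ≤ C ∧ ∀ x : ℕ → K, Function.Injective x →
      (∀ n, x (n + 1) = α * x n + β) → ∀ v : ℕ → Fin r → K,
      (∀ n i, Q.eval (x n) * v (n + 1) i = ∑ j, (N i j).eval (x n) * v n j) →
      Decomp C g0 (1 / (3 * 2 ^ ((r + m).choose m - 2)))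
        {n | ∀ h ∈ H, val (x n) (v n) h = 0} := by
  classical
  -- a finite subfamily
  obtain ⟨H', hH'H, hspan⟩ := (Submodule.fg_span_iff_fg_span_finset_subset H).1
    (IsNoetherian.noetherian (Submodule.span (MvPolynomial (Fin r) K[X]) H))
  have hzero : ∀ (x : K) (v : Fin r → K),
      (∀ h ∈ H, val x v h = 0) ↔ ∀ h ∈ H', val x v h = 0 := by
    intro x v
    constructor
    · exact fun h g hg => h g (hH'H hg)
    · intro h g hg
      have h1 : g ∈ Submodule.span (MvPolynomial (Fin r) K[X]) (H' : Set _) := by
        rw [← hspan]; exact Submodule.subset_span hg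
      have h2 : Ideal.span (H' : Set (MvPolynomial (Fin r) K[X])) ≤
          RingHom.ker (MvPolynomial.eval₂Hom (Polynomial.evalRingHom x) v) := by
        refine Ideal.span_le.2 (fun g' hg' => ?_)
        exact h g' hg'
      exact h2 h1
  -- functionals on the symmetric power
  let mon : (Fin r → K) → Sym (Option (Fin r)) m → K := fun v s =>
    (Multiset.map (fun o => o.elim 1 v) s.1).prod
  have hmon : ∀ (v : Fin r → K) (I : Fin m → Option (Fin r)),
      ∏ k, (I k).elim 1 v = mon v (symOf I) := fun v I => prod_symOf I (fun o => o.elim 1 v)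
  have hc : ∀ h : H', ∃ c : Sym (Option (Fin r)) m → K[X],
      ∀ (x : K) (v : Fin r → K),
        val x v (h : MvPolynomial (Fin r) K[X]) = ∑ s, (c s).eval x * mon v s := by
    intro h
    obtain ⟨c, hc⟩ := exists_functional m _ (hH _ (hH'H h.2))
    refine ⟨fun s => ∑ I ∈ Finset.univ.filter (fun I => symOf I = s), c I, fun x v => ?_⟩
    rw [hc x v, ← Finset.sum_fiberwise Finset.univ symOf]
    refine Finset.sum_congr rfl (fun s _ => ?_)
    rw [Polynomial.eval_finset_sum, Finset.sum_mul]
    refine Finset.sum_congr rfl (fun I hI => ?_)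
    rw [hmon, (Finset.mem_filter.1 hI).2]
  choose c hc using hc
  have hcard : Fintype.card (Sym (Option (Fin r)) m) ≤ ((r + m).choose m - 2) + 2 := by
    rw [Sym.card_sym_eq_choose, Fintype.card_option, Fintype.card_fin,
      show r + 1 + m - 1 = r + m by omega]
    omega
  obtain ⟨C, g0, h1, h2, h3⟩ := linear hα β (symMat m (optMat N Q)) (Q ^ m) (pow_ne_zero _ hQ) c
    ((r + m).choose m - 2) hcard
  refine ⟨C, g0, h1, h2, fun x hx hx1 v hv => ?_⟩
  have h4 := h3 x hx hx1 (fun n s => mon (v n) s) (by
    intro n s
    rw [Polynomial.eval_pow]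
    have h5 : ∀ o : Option (Fin r), Q.eval (x n) * o.elim 1 (v (n + 1)) =
        ∑ o' : Option (Fin r), (optMat N Q o o').eval (x n) * o'.elim 1 (v n) := by
      intro o
      rw [Fintype.sum_option]
      cases o with
      | none => simp [optMat]
      | some i => simp [optMat, hv n i]
    calc Q.eval (x n) ^ m * mon (v (n + 1)) s =
          ∏ k : Fin m, (Q.eval (x n) * (rep s k).elim 1 (v (n + 1))) := by
          rw [Finset.prod_mul_distrib, hmon, symOf_rep]; simp
      _ = ∏ k : Fin m, ∑ o' : Option (Fin r),
            (optMat N Q (rep s k) o').eval (x n) * o'.elim 1 (v n) :=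
          Finset.prod_congr rfl (fun k _ => h5 (rep s k))
      _ = ∑ I' : Fin m → Option (Fin r), ∏ k,
            ((optMat N Q (rep s k) (I' k)).eval (x n) * (I' k).elim 1 (v n)) := by
          rw [Finset.prod_univ_sum]
          rw [Fintype.piFinset_univ]
      _ = ∑ s' : Sym (Option (Fin r)) m,
            ∑ I' ∈ Finset.univ.filter (fun I : Fin m → Option (Fin r) => symOf I = s'), ∏ k,
            ((optMat N Q (rep s k) (I' k)).eval (x n) * (I' k).elim 1 (v n)) :=
          (Finset.sum_fiberwise Finset.univ symOf _).symm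
      _ = _ := by
          refine Finset.sum_congr rfl (fun s' _ => ?_)
          simp only [symMat, Matrix.of_apply]
          rw [Polynomial.eval_finset_sum, Finset.sum_mul]
          refine Finset.sum_congr ?_ ?_
          · ext I'
            simp only [Finset.mem_filter]
          · intro I' hI'
            have h6 : symOf I' = s' := by simpa using hI'
            rw [Finset.prod_mul_distrib, Polynomial.eval_prod, hmon, h6])
  convert h4 using 1
  ext n
  simp only [Set.mem_setOf_eq]
  rw [hzero]
  constructor
  · intro h k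
    rw [← hc k]
    exact h k k.2
  · intro h g hg
    have := h ⟨g, hg⟩
    rw [← hc] at this
    exact this

end Pool.Agent.Q170.RS
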